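import Pool.Agent.Lib.CAT9.Poset

/-!
# The tree is Aronszajn after adding the generic point
-/

namespace CAT9

open Cardinal

/-- A name for a tree given by a relation which is not yet closed under density. -/
def TreeName.ofRaw {P : Type} [Preorder P] {L M : Type} [LinearOrder L]
    (R : P → L × M → L × M → Prop) (mono : ∀ p q x y, q ≤ p → R p x y → R q x y)
    (lt : ∀ p x y, R p x y → x.1 < y.1)
    (trans : ∀ p x y z, R p x y → R p y z → R p x z)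
    (tree : ∀ p x y z, R p x z → R p y z → x.1 < y.1 → R p x y)
    (uniq : ∀ p a i j z, R p (a, i) z → R p (a, j) z → i = j)
    (pred : ∀ p y a, a < y.1 → ∃ q, q ≤ p ∧ ∃ i, R q (a, i) y) : TreeName P L M where
  R p x y := ∀ q, q ≤ p → ∃ r, r ≤ q ∧ R r x y
  mono p q x y h h' r hr := h' r (hr.trans h)
  dense p x y h q hq := by
    obtain ⟨r, hr, h'⟩ := h q hq
    obtain ⟨r', hr', h''⟩ := h' r le_rfl
    exact ⟨r', hr'.trans hr, h''⟩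
  lt p x y h := by
    obtain ⟨r, -, h'⟩ := h p le_rfl
    exact lt r x y h'
  trans p x y z h1 h2 q hq := by
    obtain ⟨r, hr, h1'⟩ := h1 q hq
    obtain ⟨r', hr', h2'⟩ := h2 r (hr.trans hq)
    exact ⟨r', hr'.trans hr, trans r' x y z (mono r r' x y hr' h1') h2'⟩
  tree p x y z h1 h2 hxy q hq := by
    obtain ⟨r, hr, h1'⟩ := h1 q hq
    obtain ⟨r', hr', h2'⟩ := h2 r (hr.trans hq)
    exact ⟨r', hr'.trans hr, tree r' x y z (mono r r' x z hr' h1') h2' hxy⟩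
  uniq p a i j z h1 h2 := by
    obtain ⟨r, hr, h1'⟩ := h1 p le_rfl
    obtain ⟨r', hr', h2'⟩ := h2 r hr
    exact uniq r' a i j z (mono r r' _ _ hr' h1') h2'
  pred p y a h := by
    obtain ⟨q, hq, i, hi⟩ := pred p y a h
    exact ⟨q, hq, i, fun r hr => ⟨r, le_rfl, mono q r _ _ hr hi⟩⟩

section

variable {G L M X : Type} [LinearOrder L] [Preorder G] [Pts G X] [LinearOrder M]

/-- The order of the tree of names. -/
def R0 (p : Cond G L M X × G) (x y : L × M) : Prop :=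
  x.1 < y.1 ∧ y.1 ≤ p.1.ht ∧
    (∀ c ∈ Pts.cy (X := X) p.2, ∀ ξ, ξ < x.1 → p.1.t x.1 x.2 c ξ = p.1.t y.1 y.2 c ξ) ∧
    ∀ i', i' < x.2 → ∀ g, g ≤ p.2 →
      ¬ ∀ c ∈ Pts.cy (X := X) g, ∀ ξ, ξ < x.1 → p.1.t x.1 i' c ξ = p.1.t y.1 y.2 c ξ

theorem R0.mono (p q : Cond G L M X × G) (x y : L × M) (h : q ≤ p) (hR : R0 p x y) :
    R0 q x y := by
  obtain ⟨h1, h2, h3, h4⟩ := hR
  have hx : q.1.t x.1 = p.1.t x.1 := h.1.2 _ (h1.le.trans h2)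
  have hy : q.1.t y.1 = p.1.t y.1 := h.1.2 _ h2
  refine ⟨h1, h2.trans h.1.1, fun c hc ξ hξ => ?_, fun i' hi' g hg hcon => ?_⟩
  · rw [hx, hy]
    exact h3 c (Pts.cy_mono _ _ h.2 hc) ξ hξ
  · rw [hx, hy] at hcon
    exact h4 i' hi' g (hg.trans h.2) hcon

/-- The name for the tree. -/
def theTree [hA : Amb L M] [WellFoundedLT M] : TreeName (Cond G L M X × G) L M :=
  TreeName.ofRaw (fun p x y => R0 p x y) (fun p q x y h h' => R0.mono p q x y h h')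
    (fun _ _ _ h => h.1)
    (by
      intro p x y z h1 h2
      refine ⟨h1.1.trans h2.1, h2.2.1, fun c hc ξ hξ => ?_, fun i' hi' g hg hcon => ?_⟩
      · exact (h1.2.2.1 c hc ξ hξ).trans (h2.2.2.1 c hc ξ (hξ.trans h1.1))
      · refine h1.2.2.2 i' hi' g hg fun c hc ξ hξ => ?_
        exact (hcon c hc ξ hξ).trans
          (h2.2.2.1 c (Pts.cy_mono _ _ hg hc) ξ (hξ.trans h1.1)).symm)
    (by
      intro p x y z h1 h2 hxy
      refine ⟨hxy, h2.1.le.trans h2.2.1, fun c hc ξ hξ => ?_, fun i' hi' g hg hcon => ?_⟩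
      · exact (h1.2.2.1 c hc ξ hξ).trans (h2.2.2.1 c hc ξ (hξ.trans hxy)).symm
      · refine h1.2.2.2 i' hi' g hg fun c hc ξ hξ => ?_
        exact (hcon c hc ξ hξ).trans
          (h2.2.2.1 c (Pts.cy_mono _ _ hg hc) ξ (hξ.trans hxy)))
    (by
      intro p a i j z h1 h2
      rcases lt_trichotomy i j with h | h | h
      · exact absurd h1.2.2.1 (h2.2.2.2 i h p.2 le_rfl)
      · exact h
      · exact absurd h2.2.2.1 (h1.2.2.2 j h p.2 le_rfl))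
    (by
      classical
      intro p y a ha
      obtain ⟨p', hp', hht⟩ := cond_ht_dense y.1 p.1
      obtain ⟨g0, hg0, i0, hi0⟩ := p'.sys.coh a y.1 ha hht y.2 p.2
      obtain ⟨i, hi, hmin⟩ := exists_min M
        {i | ∃ g, g ≤ p.2 ∧ ∀ c ∈ Pts.cy (X := X) g, ∀ ξ, ξ < a →
          p'.t a i c ξ = p'.t y.1 y.2 c ξ}
        ⟨i0, g0, hg0, fun c hc ξ hξ => (hi0 c hc ξ hξ).symm⟩
      obtain ⟨g, hg, hgi⟩ := hi
      refine ⟨(p', g), ⟨hp', hg⟩, i, ha, hht, hgi, fun i' hi' g' hg' hcon => ?_⟩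
      exact absurd hi' (not_lt.2 (hmin i' ⟨g', hg'.trans hg, hcon⟩)))

/-- The tree named has no cofinal branch. -/
theorem forcesAronszajn [hA : Amb L M] [WellFoundedLT M] (hG : #G ≤ #M) :
    ForcesAronszajn (Cond G L M X × G) L M := by
  classical
  refine ⟨theTree, ?_⟩
  rintro ⟨p0, f0⟩ ⟨Bn⟩
  have := hA.wf
  have := Amb.neM L hA
  let D : {f : G // f ≤ f0} → L → Set (QQ G L M X) := fun f δ =>
    {s | ∃ g, g ≤ f.1 ∧ ∃ α, α ≤ s.p.ht ∧ ∃ i, Bn.B (s.p, g) α i ∧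
      ∃ ξ, δ ≤ ξ ∧ ξ < α ∧ ∀ c ∈ Pts.cy (X := X) g, s.y () c ξ ≠ s.p.t α i c ξ}
  have hDo : ∀ f δ, ∀ s s' : QQ G L M X, s' ≤ s → s ∈ D f δ → s' ∈ D f δ := by
    rintro f δ s s' hle ⟨g, hg, α, hα, i, hB, ξ, h1, h2, h3⟩
    refine ⟨g, hg, α, hα.trans hle.1.1, i, Bn.mono (s.p, g) (s'.p, g) α i ⟨hle.1, le_rfl⟩ hB, ξ, h1, h2, ?_⟩
    intro c hc
    rw [hle.2.1 () c ξ (h2.trans_le hα), hle.1.2 α hα]
    exact h3 c hc
  have hDd : ∀ f δ, ∀ s : QQ G L M X, s.p ≤ p0 → ∃ s', s' ≤ s ∧ s' ∈ D f δ := by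
    intro f δ s hs
    obtain ⟨s1, hs1, hδ⟩ := ht_dense δ s
    obtain ⟨α, hα⟩ := hA.bdd Unit (fun _ => s1.p.ht) (mk_unit_le (L := L))
    have hα := hα ()
    obtain ⟨⟨p', g⟩, hle, i, hB⟩ := Bn.total (s1.p, f.1) ⟨hs1.1.trans hs, f.2⟩ α
    have hp' : p' ≤ s1.p := hle.1
    have hg : g ≤ f.1 := hle.2
    obtain ⟨p2, hp2, hht⟩ := cond_ht_dense α p'
    have hα1 : LocIn G p2.t α (flp s1.p.ht (p2.t α i)) :=
      p2.sys.flip' hht (LocIn.self G _ _ _)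
    obtain ⟨w, hw⟩ := exists_mem p2
    have hw' : LocIn G p2.t p2.ht (repl α (flp s1.p.ht (p2.t α i)) w) :=
      p2.sys.repl' hht (Set.mem_Iic.2 le_rfl) hα1 hw
    have hp21 : p2 ≤ s1.p := hp2.trans hp'
    refine ⟨s1.ext p2 hp21 _ hw', (s1.ext_le _ _ _ _).trans hs1, g, hg, α, hht, i,
      Bn.mono (p', g) (p2, g) α i ⟨hp2, le_rfl⟩ hB, s1.p.ht, hδ, hα, fun c _ => ?_⟩
    change repl s1.p.ht (s1.y ()) (repl α (flp s1.p.ht (p2.t α i)) w) c s1.p.ht ≠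
      p2.t α i c s1.p.ht
    rw [repl_ge le_rfl, repl_lt hα, flp_self]
    simp
  have hstep : ∀ s : {s : QQ G L M X // s.p ≤ p0}, ∃ s' : {s : QQ G L M X // s.p ≤ p0},
      s'.1 ≤ s.1 ∧ s.1.p.ht < s'.1.p.ht ∧ ∀ f, s'.1 ∈ D f s.1.p.ht := by
    rintro ⟨s, hs⟩
    obtain ⟨r, hr, hrD⟩ := meet hA.inf (qq_closed (G := G) (X := X) (L := L) (M := M))
      (K := {f : G // f ≤ f0}) ((Cardinal.mk_subtype_le _).trans hG)
      (fun f => D f s.p.ht) s (fun f => hDo f _)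
      (fun f q hq => hDd f _ q (hq.1.trans hs))
    obtain ⟨p', hp', hlt⟩ := succ_ext r.p
    obtain ⟨w, hw⟩ := exists_mem p'
    have hle := r.ext_le p' hp' w hw
    exact ⟨⟨r.ext p' hp' w hw, (hle.1.trans hr.1).trans hs⟩, hle.trans hr,
      hr.1.1.trans_lt hlt, fun f => hDo f _ _ _ hle (hrD f)⟩
  choose nx hn1 hn2 hn3 using hstep
  obtain ⟨w0, hw0⟩ := exists_mem p0
  let s : ℕ → {s : QQ G L M X // s.p ≤ p0} := fun m =>
    Nat.rec ⟨mkQ p0 w0 hw0, le_rfl⟩ (fun _ s => nx s) m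
  have hs : ∀ m, s (m + 1) = nx (s m) := fun m => rfl
  have hanti : Antitone fun m => (s m).1 :=
    antitone_nat_of_succ_le fun m => by
      change (s (m + 1)).1 ≤ (s m).1
      rw [hs m]
      exact hn1 (s m)
  obtain ⟨q, hq1, hq2, hq3, hq4⟩ := union_level (mk_unit_le (L := L))
    (Set.range fun m => (s m).1)
    ((Cardinal.mk_range_le.trans (le_of_eq Cardinal.mk_nat)).trans hA.inf)
    ⟨_, ⟨0, rfl⟩⟩
    (by
      rintro x ⟨m, rfl⟩ y ⟨n, rfl⟩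
      exact ⟨_, ⟨max m n, rfl⟩, hanti (le_max_left m n), hanti (le_max_right m n)⟩)
    (by
      rintro x ⟨m, rfl⟩
      exact ⟨_, ⟨m + 1, rfl⟩, hn2 (s m)⟩)
  have hqp0 : q.p ≤ p0 := (hq1 _ ⟨0, rfl⟩).1
  obtain ⟨⟨p', f1⟩, hle, k, hB⟩ := Bn.total (q.p, f0) ⟨hqp0, le_rfl⟩ q.p.ht
  have hp' : p' ≤ q.p := hle.1
  have hf1 : f1 ≤ f0 := hle.2
  obtain ⟨j, l, hl⟩ := hq4 k
  obtain ⟨m, hm⟩ : ∃ m, ∀ d ∈ l, d.1 < (s m).1.p.ht := by
    clear hl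
    induction l with
    | nil => exact ⟨0, by simp⟩
    | cons d l ih =>
      obtain ⟨m, hm⟩ := ih
      obtain ⟨x, ⟨n, rfl⟩, hn⟩ := hq3 d.1 d.2
      refine ⟨max m n, fun e he => ?_⟩
      rcases List.mem_cons.1 he with rfl | he
      · exact lt_of_lt_of_le hn (hanti (le_max_right m n)).1.1
      · exact lt_of_lt_of_le (hm e he) (hanti (le_max_left m n)).1.1
  have hD := hn3 (s m) ⟨f1, hf1⟩
  rw [← hs m] at hD
  obtain ⟨g, hg, α, hα, i, hBi, ξ, hξ1, hξ2, hξ3⟩ := hD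
  have hqs : q ≤ (s (m + 1)).1 := hq1 _ ⟨m + 1, rfl⟩
  have hαγ : α < q.p.ht := hα.trans_lt (hq2 _ ⟨m + 1, rfl⟩)
  have hB1 : Bn.B (p', g) α i := Bn.mono ((s (m + 1)).1.p, g) (p', g) α i ⟨hp'.trans hqs.1, le_rfl⟩ hBi
  have hB2 : Bn.B (p', g) q.p.ht k := Bn.mono (p', f1) (p', g) _ k ⟨le_rfl, hg⟩ hB
  obtain ⟨r, hr, hR⟩ := Bn.chain _ _ _ _ _ hB1 hB2 hαγ (p', g) le_rfl
  obtain ⟨c, hc⟩ := Pts.cy_ne (X := X) r.2
  have hrp : r.1 ≤ p' := hr.1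
  have e1 : r.1.t α = (s (m + 1)).1.p.t α := (hrp.trans (hp'.trans hqs.1)).2 α hα
  have e2 : r.1.t q.p.ht = q.p.t q.p.ht := (hrp.trans hp').2 _ le_rfl
  have e3 := hR.2.2.1 c hc ξ hξ2
  simp only [e1, e2] at e3
  refine hξ3 c (Pts.cy_mono _ _ hr.2 hc) ?_
  rw [e3, hl c ξ fun d hd => (hm d hd).trans_le hξ1]
  exact (hqs.2.1 () c ξ (hξ2.trans_le hα)).symm

end

end CAT9
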