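import Pool.Agent.Lib.CAT9.Split

/-!
# The Cohen case: choosing a real
-/

namespace CAT9

open Cardinal

instance : Pts AddOmega (ℕ → Bool) where
  cy f := {c | ∀ n b, f.1 n = some b → c n = b}
  cy_mono _ _ h _ hc n b hb := hc n b (h n b hb)
  cy_ne f := ⟨fun n => (f.1 n).getD false, fun n b hb => by simp [hb]⟩

theorem mem_cy {f : AddOmega} {c : ℕ → Bool} :
    c ∈ Pts.cy (X := ℕ → Bool) f ↔ ∀ n b, f.1 n = some b → c n = b := Iff.rfl

theorem add_fill (f : AddOmega) (m : ℕ) :
    ∃ g : AddOmega, g ≤ f ∧ ∀ k, k < m → ∃ b, g.1 k = some b := by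
  refine ⟨⟨fun k => if k < m then some ((f.1 k).getD false) else f.1 k, ?_⟩, ?_, ?_⟩
  · refine (f.2.union (Set.finite_lt_nat m)).subset fun k hk => ?_
    by_cases h : k < m
    · exact Or.inr h
    · simp only [Set.mem_setOf_eq, h, if_false] at hk
      exact Or.inl hk
  · intro n b hb
    by_cases h : n < m
    · simp [h, hb]
    · simp [h, hb]
  · intro k hk
    exact ⟨(f.1 k).getD false, by simp [hk]⟩

/-- The points which agree with `x` below `m`. -/
def cyl (x : ℕ → Bool) (m : ℕ) : Set (ℕ → Bool) := {c | ∀ k, k < m → c k = x k}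

theorem cyl_clop (x : ℕ → Bool) (m : ℕ) : Clop AddOmega (cyl x m) := by
  intro f
  obtain ⟨g, hg, hfill⟩ := add_fill f m
  refine ⟨g, hg, ?_⟩
  by_cases h : ∀ k, k < m → g.1 k = some (x k)
  · exact Or.inl fun c hc k hk => hc k _ (h k hk)
  · push Not at h
    obtain ⟨k, hk, hne⟩ := h
    obtain ⟨b, hb⟩ := hfill k hk
    refine Or.inr fun c hc hcon => hne ?_
    rw [hb, ← hcon k hk, hc k b hb]

theorem cyl_zero (x : ℕ → Bool) : cyl x 0 = Set.univ := by
  ext c; simp [cyl]

theorem cyl_congr {x y : ℕ → Bool} {m : ℕ} (h : ∀ k, k < m → x k = y k) : cyl x m = cyl y m := by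
  ext c
  constructor
  · intro hc k hk
    rw [hc k hk, h k hk]
  · intro hc k hk
    rw [hc k hk, h k hk]

theorem cyl_anti (x : ℕ → Bool) {m n : ℕ} (h : m ≤ n) : cyl x n ⊆ cyl x m :=
  fun _ hc k hk => hc k (hk.trans_le h)

theorem cyl_union (x : ℕ → Bool) (m : ℕ) :
    cyl x m = cyl (Function.update x m false) (m + 1) ∪ cyl (Function.update x m true) (m + 1) := by
  ext c
  constructor
  · intro hc
    rcases hcm : c m with _ | _
    · refine Or.inl fun k hk => ?_
      rcases Nat.lt_succ_iff_lt_or_eq.1 hk with h | rfl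
      · rw [Function.update_of_ne h.ne, hc k h]
      · rw [Function.update_self, hcm]
    · refine Or.inr fun k hk => ?_
      rcases Nat.lt_succ_iff_lt_or_eq.1 hk with h | rfl
      · rw [Function.update_of_ne h.ne, hc k h]
      · rw [Function.update_self, hcm]
  · rintro (hc | hc) k hk
    · rw [hc k (hk.trans (Nat.lt_succ_self m)), Function.update_of_ne hk.ne]
    · rw [hc k (hk.trans (Nat.lt_succ_self m)), Function.update_of_ne hk.ne]

/-- A condition off `x`. -/
theorem add_off (f : AddOmega) (x : ℕ → Bool) :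
    ∃ g : AddOmega, g ≤ f ∧ ∃ n, ∀ c ∈ Pts.cy (X := ℕ → Bool) g, c ∉ cyl x n := by
  obtain ⟨m, hm⟩ : ∃ m, f.1 m = none := by
    obtain ⟨m, hm⟩ := f.2.exists_notMem
    exact ⟨m, by simpa using hm⟩
  refine ⟨⟨fun k => if k = m then some (!(x m)) else f.1 k, ?_⟩, ?_, m + 1, ?_⟩
  · refine (f.2.union (Set.finite_singleton m)).subset fun k hk => ?_
    by_cases h : k = m
    · exact Or.inr h
    · simp only [Set.mem_setOf_eq, h, if_false] at hk
      exact Or.inl hk
  · intro n b hb
    have hne : n ≠ m := by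
      rintro rfl
      rw [hm] at hb
      exact absurd hb (by simp)
    change (if n = m then some (!(x m)) else f.1 n) = some b
    rw [if_neg hne, hb]
  · intro c hc hcon
    have h1 : c m = !(x m) := hc m _ (by simp)
    have h2 : c m = x m := hcon m (Nat.lt_succ_self m)
    rw [h1] at h2
    exact absurd h2 (by cases x m <;> simp)

section

variable {L M : Type} [LinearOrder L] [hA : Amb L M]
  {T : TreeName (Cond AddOmega L M (ℕ → Bool)) L M}
  {r0 : QQ AddOmega L M (ℕ → Bool)}

/-- There is a real at which the branch can always be split. -/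
theorem exists_real (B : BranchName T.lift r0)
    (h : ∀ r, r ≤ r0 → Split B r Set.univ) :
    ∃ (x : ℕ → Bool) (rs : QQ AddOmega L M (ℕ → Bool)), rs ≤ r0 ∧
      ∀ m r, r ≤ rs → Split B r (cyl x m) := by
  classical
  let S : ℕ → Type := fun m =>
    {s : QQ AddOmega L M (ℕ → Bool) × (ℕ → Bool) //
      s.1 ≤ r0 ∧ ∀ r, r ≤ s.1 → Split B r (cyl s.2 m)}
  have step : ∀ m (s : S m), ∃ s' : S (m + 1), s'.1.1 ≤ s.1.1 ∧
      ∀ k, k < m → s'.1.2 k = s.1.2 k := by
    rintro m ⟨⟨r, x⟩, hr, hgood⟩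
    by_contra hcon
    push Not at hcon
    have key : ∀ b, ∀ r', r' ≤ r → ∃ r'', r'' ≤ r' ∧
        ¬ Split B r'' (cyl (Function.update x m b) (m + 1)) := by
      intro b r' hr'
      by_contra hc
      push Not at hc
      obtain ⟨k, hk, hne⟩ := hcon ⟨(r', Function.update x m b), hr'.trans hr, hc⟩ hr'
      exact hne (Function.update_of_ne hk.ne _ _)
    obtain ⟨r1, hr1, hn1⟩ := key false r le_rfl
    obtain ⟨r2, hr2, hn2⟩ := key true r1 hr1
    have h12 := split_union (B := B) ((hr2.trans hr1).trans hr)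
      (cyl_clop (Function.update x m false) (m + 1)) (fun h => hn1 (h.mono hr2)) hn2
    rw [← cyl_union] at h12
    exact h12 (hgood r2 (hr2.trans hr1))
  choose nx hn1 hn2 using step
  let s : ∀ m, S m := fun m => Nat.rec ⟨(r0, fun _ => false), le_rfl, fun r hr => by
    simpa only [cyl_zero] using h r hr⟩ (fun m s => nx m s) m
  have hs : ∀ m, s (m + 1) = nx m (s m) := fun m => rfl
  let x : ℕ → Bool := fun k => (s (k + 1)).1.2 k
  have hx : ∀ m k, k < m → (s m).1.2 k = x k := by
    intro m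
    induction m with
    | zero => intro k hk; exact absurd hk (Nat.not_lt_zero k)
    | succ m ih =>
      intro k hk
      rcases Nat.lt_succ_iff_lt_or_eq.1 hk with h | rfl
      · rw [hs m, hn2 m (s m) k h, ih k h]
      · rfl
  have hanti : Antitone fun m => (s m).1.1 :=
    antitone_nat_of_succ_le fun m => by
      rw [hs m]
      exact hn1 m (s m)
  obtain ⟨rs, hrs⟩ := qq_closed (G := AddOmega) (X := ℕ → Bool) (L := L) (M := M)
    (Set.range fun m => (s m).1.1)
    ((Cardinal.mk_range_le.trans (le_of_eq Cardinal.mk_nat)).trans hA.inf)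
    (by
      rintro a ⟨m, rfl⟩ b ⟨n, rfl⟩
      exact ⟨_, ⟨max m n, rfl⟩, hanti (le_max_left m n), hanti (le_max_right m n)⟩)
  refine ⟨x, rs, hrs _ ⟨0, rfl⟩, fun m r hr => ?_⟩
  rw [← cyl_congr (hx m)]
  exact (s m).2.2 r (hr.trans (hrs _ ⟨m, rfl⟩))

end

end CAT9
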