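import Pool.Agent.Lib.CAT9.Defs

/-!
# Homogeneous families of names for sequences
-/

namespace CAT9

open Cardinal

/-- A space of points on which the conditions of `G` act as basic sets. -/
class Pts (G X : Type) [Preorder G] where
  /-- the points extending a condition -/
  cy : G → Set X
  cy_mono : ∀ f g : G, g ≤ f → cy g ⊆ cy f
  cy_ne : ∀ g : G, (cy g).Nonempty

/-- Names for sequences of zeros and ones. -/
abbrev Nm (X L : Type) : Type := X → L → Bool

section basic

variable {L M X : Type} [LinearOrder L]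

/-- Replace the part of `z` below `a` by that of `y`. -/
def repl (a : L) (y z : Nm X L) : Nm X L := fun c ξ => if ξ < a then y c ξ else z c ξ

/-- Flip the value at `a`. -/
def flp (a : L) (y : Nm X L) : Nm X L := fun c ξ => if ξ = a then !(y c ξ) else y c ξ

theorem repl_lt {a : L} {y z : Nm X L} {c : X} {ξ : L} (h : ξ < a) :
    repl a y z c ξ = y c ξ := by simp [repl, h]

theorem repl_ge {a : L} {y z : Nm X L} {c : X} {ξ : L} (h : a ≤ ξ) :
    repl a y z c ξ = z c ξ := by simp [repl, not_lt.2 h]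

theorem flp_ne {a : L} {y : Nm X L} {c : X} {ξ : L} (h : ξ ≠ a) :
    flp a y c ξ = y c ξ := by simp [flp, h]

theorem flp_self {a : L} {y : Nm X L} {c : X} : flp a y c a = !(y c a) := by simp [flp]

/-- The name `y` is forced to be one of the sequences on level `a`. -/
def LocIn (G : Type) [Preorder G] [Pts G X] (t : L → M → Nm X L) (a : L) (y : Nm X L) : Prop :=
  ∀ f : G, ∃ g, g ≤ f ∧ ∃ i, ∀ c ∈ Pts.cy (X := X) g, ∀ ξ, ξ < a → y c ξ = t a i c ξ

variable (G : Type) [Preorder G] [Pts G X]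

theorem LocIn.self [Nonempty M] (t : L → M → Nm X L) (a : L) (i : M) : LocIn G t a (t a i) :=
  fun f => ⟨f, le_rfl, i, fun _ _ _ _ => rfl⟩

variable {G}

theorem LocIn.congrT {t t' : L → M → Nm X L} {a : L} {y : Nm X L} (h : t a = t' a)
    (hy : LocIn G t a y) : LocIn G t' a y := by
  intro f
  obtain ⟨g, hg, i, hi⟩ := hy f
  exact ⟨g, hg, i, fun c hc ξ hξ => by rw [hi c hc ξ hξ, h]⟩

theorem LocIn.ofLocal {t : L → M → Nm X L} {a : L} {y : Nm X L}
    (h : ∀ f : G, ∃ g, g ≤ f ∧ ∃ z, LocIn G t a z ∧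
      ∀ c ∈ Pts.cy (X := X) g, ∀ ξ, ξ < a → y c ξ = z c ξ) : LocIn G t a y := by
  intro f
  obtain ⟨g, hg, z, hz, hyz⟩ := h f
  obtain ⟨g', hg', i, hi⟩ := hz g
  exact ⟨g', hg'.trans hg, i, fun c hc ξ hξ => by
    rw [hyz c (Pts.cy_mono _ _ hg' hc) ξ hξ, hi c hc ξ hξ]⟩

theorem LocIn.congr {t : L → M → Nm X L} {a : L} {y z : Nm X L}
    (h : ∀ c ξ, ξ < a → y c ξ = z c ξ) (hz : LocIn G t a z) : LocIn G t a y :=
  LocIn.ofLocal fun f => ⟨f, le_rfl, z, hz, fun c _ ξ hξ => h c ξ hξ⟩

variable (G)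

/-- The levels in `D` are coherent, and closed under replacing initial segments and flips. -/
structure Sys (t : L → M → Nm X L) (D : Set L) : Prop where
  coh : ∀ a b, a < b → b ∈ D → ∀ j, LocIn G t a (t b j)
  rep : ∀ a b, a < b → b ∈ D → ∀ i j, LocIn G t b (repl a (t a i) (t b j))
  flip : ∀ a b, a < b → b ∈ D → ∀ j, LocIn G t b (flp a (t b j))

variable {G}

theorem Sys.down {t : L → M → Nm X L} {D : Set L} (hs : Sys G t D) {a b : L} (hab : a ≤ b)
    (hb : b ∈ D) {y : Nm X L} (hy : LocIn G t b y) : LocIn G t a y := by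
  rcases hab.eq_or_lt with rfl | hlt
  · exact hy
  · refine LocIn.ofLocal fun f => ?_
    obtain ⟨g, hg, i, hi⟩ := hy f
    exact ⟨g, hg, t b i, hs.coh a b hlt hb i, fun c hc ξ hξ => hi c hc ξ (hξ.trans hlt)⟩

theorem Sys.repl' {t : L → M → Nm X L} {D : Set L} (hs : Sys G t D) {a b : L} (hab : a ≤ b)
    (hb : b ∈ D) {y z : Nm X L} (hy : LocIn G t a y) (hz : LocIn G t b z) :
    LocIn G t b (repl a y z) := by
  rcases hab.eq_or_lt with rfl | hlt
  · exact LocIn.congr (fun c ξ hξ => repl_lt hξ) hy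
  · refine LocIn.ofLocal fun f => ?_
    obtain ⟨g, hg, i, hi⟩ := hy f
    obtain ⟨g', hg', j, hj⟩ := hz g
    refine ⟨g', hg'.trans hg, repl a (t a i) (t b j), hs.rep a b hlt hb i j, fun c hc ξ hξ => ?_⟩
    rcases lt_or_ge ξ a with h | h
    · rw [repl_lt h, repl_lt h, hi c (Pts.cy_mono _ _ hg' hc) ξ h]
    · rw [repl_ge h, repl_ge h, hj c hc ξ hξ]

theorem Sys.flip' {t : L → M → Nm X L} {D : Set L} (hs : Sys G t D) {a b : L}
    (hb : b ∈ D) {y : Nm X L} (hy : LocIn G t b y) :
    LocIn G t b (flp a y) := by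
  rcases lt_or_ge a b with hlt | hge
  · refine LocIn.ofLocal fun f => ?_
    obtain ⟨g, hg, i, hi⟩ := hy f
    refine ⟨g, hg, flp a (t b i), hs.flip a b hlt hb i, fun c hc ξ hξ => ?_⟩
    unfold flp
    rw [hi c hc ξ hξ]
  · exact LocIn.congr (fun c ξ hξ => flp_ne (ne_of_lt (hξ.trans_le hge))) hy

theorem Sys.mono {t : L → M → Nm X L} {D E : Set L} (hs : Sys G t D) (h : E ⊆ D) :
    Sys G t E :=
  ⟨fun a b hab hb => hs.coh a b hab (h hb), fun a b hab hb => hs.rep a b hab (h hb),
    fun a b hab hb => hs.flip a b hab (h hb)⟩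

theorem Sys.congrT {t t' : L → M → Nm X L} {D : Set L} (hs : Sys G t D)
    (h : ∀ b ∈ D, t b = t' b) (h' : ∀ a b, a < b → b ∈ D → t a = t' a) : Sys G t' D := by
  refine ⟨fun a b hab hb j => ?_, fun a b hab hb i j => ?_, fun a b hab hb j => ?_⟩
  · rw [← h b hb]
    exact LocIn.congrT (h' a b hab hb) (hs.coh a b hab hb j)
  · rw [← h b hb, ← h' a b hab hb]
    exact LocIn.congrT (h b hb) (hs.rep a b hab hb i j)
  · rw [← h b hb]
    exact LocIn.congrT (h b hb) (hs.flip a b hab hb j)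

end basic

/-! ### Adding one level on top -/

section ext

variable {L M X : Type} [LinearOrder L] {G : Type} [Preorder G] [Pts G X]

/-- The operations used to generate a level: replacing an initial segment, flipping a value. -/
abbrev Op (M : Type) {L : Type} [LinearOrder L] (γ : L) : Type := {a : L // a < γ} × Option M

/-- The action of an operation. -/
def act (t : L → M → Nm X L) {γ : L} (o : Op M γ) (y : Nm X L) : Nm X L :=
  match o.2 with
  | some i => repl o.1.1 (t o.1.1 i) y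
  | none => flp o.1.1 y

/-- The action of a word of operations. -/
def word (t : L → M → Nm X L) {γ : L} (l : List (Op M γ)) (y : Nm X L) : Nm X L :=
  l.foldr (fun o z => act t o z) y

theorem mk_words_le (hM : ℵ₀ ≤ #M) {γ : L} (hγ : #{a : L // a < γ} ≤ #M) :
    #(List (Op M γ) × M) ≤ #M := by
  have h1 : #(Op M γ) ≤ #M := by
    rw [Cardinal.mk_prod, Cardinal.lift_id, Cardinal.lift_id, Cardinal.mk_option]
    refine (mul_le_mul' hγ (Cardinal.add_one_le_add_one_iff.2 le_rfl)).trans ?_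
    rw [Cardinal.add_one_eq hM, Cardinal.mul_eq_self hM]
  have h2 : #(List (Op M γ)) ≤ #M := (Cardinal.mk_list_le_max _).trans (max_le hM h1)
  rw [Cardinal.mk_prod, Cardinal.lift_id, Cardinal.lift_id]
  exact (mul_le_mul' h2 le_rfl).trans (Cardinal.mul_eq_self hM).le

/-- The set of possible elements of level `γ`. -/
def Star (G : Type) [Preorder G] [Pts G X] (t : L → M → Nm X L) (γ : L) (y : Nm X L) : Prop :=
  ∀ a, a < γ → LocIn G t a y

theorem Star.act [Nonempty M] {t : L → M → Nm X L} {γ : L} (hs : Sys G t (Set.Iio γ))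
    {y : Nm X L} (hy : Star G t γ y) (o : Op M γ) : Star G t γ (act t o y) := by
  obtain ⟨⟨d, hd⟩, o2⟩ := o
  intro a ha
  rcases o2 with _ | i
  · exact hs.flip' ha (hy a ha)
  · change LocIn G t a (repl d (t d i) y)
    rcases le_or_gt a d with h | h
    · refine LocIn.congr (fun c ξ hξ => repl_lt (hξ.trans_le h)) ?_
      exact hs.down h hd (LocIn.self G t d i)
    · exact hs.repl' h.le ha (LocIn.self G t d i) (hy a ha)

theorem Star.word [Nonempty M] {t : L → M → Nm X L} {γ : L} (hs : Sys G t (Set.Iio γ))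
    {y : Nm X L} (hy : Star G t γ y) (l : List (Op M γ)) : Star G t γ (word t l y) := by
  induction l with
  | nil => exact hy
  | cons o l ih => exact Star.act hs ih o

theorem word_eq (t : L → M → Nm X L) {γ : L} (l : List (Op M γ)) (y : Nm X L) (c : X) (ξ : L)
    (h : ∀ o ∈ l, o.1.1 < ξ) : word t l y c ξ = y c ξ := by
  induction l with
  | nil => rfl
  | cons o l ih =>
    have h1 : o.1.1 < ξ := h o (by simp)
    have h2 := ih fun o ho => h o (List.mem_cons_of_mem _ ho)
    have h3 : word t (o :: l) y = act t o (word t l y) := rfl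
    rw [h3, ← h2]
    obtain ⟨d, _ | i⟩ := o
    · exact flp_ne h1.ne'
    · exact repl_ge h1.le

/-- Adding one level. -/
theorem exists_level [Nonempty M] (hM : ℵ₀ ≤ #M) {γ : L} (hγ : #{a : L // a < γ} ≤ #M)
    {t : L → M → Nm X L} (hs : Sys G t (Set.Iio γ)) (Y : M → Nm X L)
    (hY : ∀ i, Star G t γ (Y i)) :
    ∃ t' : L → M → Nm X L, (∀ a, a < γ → t' a = t a) ∧ Sys G t' (Set.Iic γ) ∧
      (∀ i, ∃ i', t' γ i' = Y i) ∧
      ∀ k, ∃ i, ∃ l : List {a : L // a < γ}, ∀ c ξ, (∀ d ∈ l, d.1 < ξ) → t' γ k c ξ = Y i c ξ := by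
  classical
  have hne : Nonempty (List (Op M γ) × M) := ⟨([], Classical.arbitrary M)⟩
  obtain ⟨φ, hφ⟩ : ∃ φ : M → List (Op M γ) × M, Function.Surjective φ := by
    have := mk_words_le hM hγ
    obtain ⟨ψ⟩ := (Cardinal.le_def _ _).1 this
    exact ⟨Function.invFun ψ, Function.invFun_surjective ψ.injective⟩
  set W : M → Nm X L := fun m => word t (φ m).1 (Y (φ m).2) with hW
  set t' : L → M → Nm X L := fun a => if a < γ then t a else W with ht'
  have hlt : ∀ a, a < γ → t' a = t a := fun a ha => by simp [ht', ha]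
  have hγ' : t' γ = W := by simp [ht']
  have hsW : ∀ m, Star G t γ (W m) := fun m => Star.word hs (hY _) _
  have hlt' : ∀ a, a < γ → t a = t' a := fun a ha => (hlt a ha).symm
  refine ⟨t', hlt, ⟨?_, ?_, ?_⟩, ?_, ?_⟩
  · intro a b hab hb j
    rcases (Set.mem_Iic.1 hb).eq_or_lt with rfl | hb'
    · rw [hγ']
      exact LocIn.congrT (hlt' a hab) (hsW j a hab)
    · rw [hlt b hb']
      exact LocIn.congrT (hlt' a (hab.trans hb')) (hs.coh a b hab hb' j)
  · intro a b hab hb i j
    rcases (Set.mem_Iic.1 hb).eq_or_lt with rfl | hb'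
    · rw [hγ', hlt a hab]
      obtain ⟨m, hm⟩ := hφ ((⟨⟨a, hab⟩, some i⟩ : Op M b) :: (φ j).1, (φ j).2)
      have : repl a (t a i) (W j) = t' b m := by
        rw [hγ']
        simp only [hW, hm]
        rfl
      rw [this]
      exact LocIn.self G t' b m
    · rw [hlt b hb', hlt a (hab.trans hb')]
      exact LocIn.congrT (hlt' b hb') (hs.rep a b hab hb' i j)
  · intro a b hab hb j
    rcases (Set.mem_Iic.1 hb).eq_or_lt with rfl | hb'
    · rw [hγ']
      obtain ⟨m, hm⟩ := hφ ((⟨⟨a, hab⟩, none⟩ : Op M b) :: (φ j).1, (φ j).2)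
      have : flp a (W j) = t' b m := by
        rw [hγ']
        simp only [hW, hm]
        rfl
      rw [this]
      exact LocIn.self G t' b m
    · rw [hlt b hb']
      exact LocIn.congrT (hlt' b hb') (hs.flip a b hab hb' j)
  · intro i
    obtain ⟨m, hm⟩ := hφ ([], i)
    refine ⟨m, ?_⟩
    rw [hγ']
    simp only [hW, hm]
    rfl
  · intro k
    refine ⟨(φ k).2, (φ k).1.map (fun o => o.1), fun c ξ h => ?_⟩
    rw [hγ']
    refine word_eq t (φ k).1 _ c ξ fun o ho => ?_
    exact h o.1 (List.mem_map.2 ⟨o, ho, rfl⟩)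

end ext

end CAT9
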