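import Mathlib

/-!
# Definitions for the tree property in forcing extensions

A forcing notion is a preorder, smaller conditions are stronger.  Trees of height `L` (a well
order) whose levels are `{a} × M` are given by names, that is, by the relation
`p forces x < y`.
-/

namespace CAT9

open Cardinal

/-- A set of levels of order type `μ⁺`. -/
abbrev Lev (μ : Cardinal.{0}) : Type := (Order.succ μ).ord.ToType

/-- A set with `μ` elements, used to number the nodes of a level. -/
abbrev Nod (μ : Cardinal.{0}) : Type := μ.ord.ToType

/-- A name, for the forcing notion `P`, for a tree whose nodes are the pairs `(a, i)`, the pair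
`(a, i)` lying on level `a`: the relation `R p x y` says that `p` forces `x` to lie below `y`. -/
structure TreeName (P : Type) [Preorder P] (L M : Type) [LinearOrder L] where
  /-- `p` forces that `x` lies below `y`. -/
  R : P → L × M → L × M → Prop
  mono : ∀ p q x y, q ≤ p → R p x y → R q x y
  dense : ∀ p x y, (∀ q, q ≤ p → ∃ r, r ≤ q ∧ R r x y) → R p x y
  lt : ∀ p x y, R p x y → x.1 < y.1
  trans : ∀ p x y z, R p x y → R p y z → R p x z
  tree : ∀ p x y z, R p x z → R p y z → x.1 < y.1 → R p x y
  uniq : ∀ p a i j z, R p (a, i) z → R p (a, j) z → i = j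
  pred : ∀ p y a, a < y.1 → ∃ q, q ≤ p ∧ ∃ i, R q (a, i) y

/-- A name, below the condition `p`, for a cofinal branch of the tree named by `T`: the relation
`B q a i` says that `q` forces the branch to go through the node `(a, i)`. -/
structure BranchName {P : Type} [Preorder P] {L M : Type} [LinearOrder L]
    (T : TreeName P L M) (p : P) where
  /-- `q` forces that the branch goes through `(a, i)`. -/
  B : P → L → M → Prop
  mono : ∀ q r a i, r ≤ q → B q a i → B r a i
  uniq : ∀ q a i j, B q a i → B q a j → i = j
  total : ∀ q, q ≤ p → ∀ a, ∃ r, r ≤ q ∧ ∃ i, B r a i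
  chain : ∀ q a b i j, B q a i → B q b j → a < b → T.R q (a, i) (b, j)

/-- The forcing notion `P` forces that every tree of height `L` with levels `{a} × M` has a
cofinal branch. -/
def ForcesTP (P : Type) [Preorder P] (L M : Type) [LinearOrder L] : Prop :=
  ∀ (T : TreeName P L M) (p : P), ∃ q, q ≤ p ∧ Nonempty (BranchName T q)

/-- The forcing notion `P` forces that some tree of height `L` with levels `{a} × M` has no
cofinal branch. -/
def ForcesAronszajn (P : Type) [Preorder P] (L M : Type) [LinearOrder L] : Prop :=
  ∃ T : TreeName P L M, ∀ p, ¬ Nonempty (BranchName T p)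

/-- `μ⁺`-directed closed: every directed set of at most `μ` conditions has a lower bound. -/
def DirectedClosed (μ : Cardinal.{0}) (P : Type) [Preorder P] : Prop :=
  ∀ S : Set P, #S ≤ μ → DirectedOn (fun a b => b ≤ a) S → ∃ q, ∀ s ∈ S, q ≤ s

/-- `μ⁺`-distributive: the intersection of at most `μ` open dense sets is dense. -/
def Distributive (μ : Cardinal.{0}) (P : Type) [Preorder P] : Prop :=
  ∀ (K : Type) (D : K → Set P), #K ≤ μ →
    (∀ k, (∀ p q, q ≤ p → p ∈ D k → q ∈ D k) ∧ ∀ p, ∃ q, q ≤ p ∧ q ∈ D k) →
    ∀ p, ∃ q, q ≤ p ∧ ∀ k, q ∈ D k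

/-- The forcing `Add(ω, 1)` which adds a Cohen real: the finite partial functions from the natural
numbers to a two element set. -/
def AddOmega : Type := {f : ℕ → Option Bool // {n | f n ≠ none}.Finite}

/-- A condition `g` is stronger than `f` if it extends `f`. -/
instance : Preorder AddOmega where
  le g f := ∀ n b, f.1 n = some b → g.1 n = some b
  le_refl := fun _ _ _ h => h
  le_trans := fun _ _ _ h1 h2 n b h => h1 n b (h2 n b h)

end CAT9
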