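import Pool.Agent.Lib.CAT9.Stage
import Pool.Agent.Lib.CAT9.Aron

/-!
# The tree property is preserved
-/

namespace CAT9

open Cardinal

section

variable {L M : Type} [LinearOrder L] [hA : Amb L M]
  {T : TreeName (Cond AddOmega L M (ℕ → Bool)) L M}
  {r0 : QQ AddOmega L M (ℕ → Bool)}

/-- The first `m` terms of a sequence. -/
def trunc {M : Type} (m0 : M) (F : ℕ → M) (m : ℕ) : Seq0 M m0 :=
  ⟨fun k => if k < m then F k else m0, m, fun k hk => by simp [not_lt.2 hk]⟩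

theorem trunc_agr {M : Type} (m0 : M) (F : ℕ → M) {m n n' : ℕ} (h : m ≤ n) (h' : m ≤ n') :
    Agr m (trunc m0 F n) (trunc m0 F n') := by
  intro k hk
  simp [trunc, hk.trans_le h, hk.trans_le h']

theorem trunc_ne {M : Type} (m0 : M) {F F' : ℕ → M} {m : ℕ} (h : F m ≠ F' m) :
    ¬ Agr (m + 1) (trunc m0 F (m + 1)) (trunc m0 F' (m + 1)) := by
  intro hcon
  have := hcon m (Nat.lt_succ_self m)
  simp only [trunc, Nat.lt_succ_self, if_true] at this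
  exact h this

/-- The contradiction: a branch which can always be split gives too many nodes on a level. -/
theorem no_splitting (B : BranchName T.lift r0) (hML : ¬ ∃ f : L → M, Function.Injective f)
    (hLM : #L ≤ #(ℕ → M)) : ¬ ∀ r, r ≤ r0 → Split B r Set.univ := by
  classical
  intro hsplit
  have := hA.wf
  obtain ⟨x, rs, hrs, hx⟩ := exists_real B hsplit
  obtain ⟨m0⟩ := Amb.neM L hA
  have hJ : #(Seq0 M m0) ≤ #M := mk_seq0_le m0 (hA.inf (L := L))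
  have hJne : Nonempty (Seq0 M m0) := ⟨⟨fun _ => m0, 0, fun _ _ => rfl⟩⟩
  -- the sequence of families
  let S : ℕ → Type := fun m => {s : FF L M m0 (fun _ _ => ∅) // Inv B rs m s}
  have hst : ∀ m (s : S m), ∃ s' : S (m + 1), s'.1 ≤ s.1 ∧ s.1.p.ht < s'.1.p.ht ∧
      ∀ f g, ∀ c ∈ AA x m f g, (∀ ξ, ξ < s.1.p.ht → s.1.y f c ξ = s.1.y g c ξ) →
        ∀ ξ, ξ < s'.1.p.ht → s'.1.y f c ξ = s'.1.y g c ξ := by
    rintro m ⟨s, hs⟩
    obtain ⟨s', h1, h2⟩ := stage B x hrs hx m s hs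
    exact ⟨⟨s', h1⟩, h2⟩
  choose nx hn1 hn2 hn3 using hst
  let s : ∀ m, S m := fun m => Nat.rec ⟨⟨rs.p, fun _ => rs.y (), fun _ => rs.mem ()⟩,
    ⟨fun _ => mkQ_self_le rs, fun _ _ _ _ _ _ => rfl,
      fun f g h => absurd (fun k hk => absurd hk (Nat.not_lt_zero k)) h⟩⟩ (fun m s => nx m s) m
  have hs : ∀ m, s (m + 1) = nx m (s m) := fun m => rfl
  have hanti : Antitone fun m => (s m).1 :=
    antitone_nat_of_succ_le fun m => by
      rw [hs m]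
      exact hn1 m (s m)
  have hpat : ∀ m f g, ∀ c ∈ AA x m f g,
      (∀ ξ, ξ < (s m).1.p.ht → (s m).1.y f c ξ = (s m).1.y g c ξ) →
        ∀ ξ, ξ < (s (m + 1)).1.p.ht → (s (m + 1)).1.y f c ξ = (s (m + 1)).1.y g c ξ := by
    intro m f g c hc h
    rw [hs m]
    exact hn3 m (s m) f g c hc h
  obtain ⟨q, hq1, hq2, hq3, -⟩ := union_level hJ
    (Set.range fun m => (s m).1)
    ((Cardinal.mk_range_le.trans (le_of_eq Cardinal.mk_nat)).trans hA.inf)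
    ⟨_, ⟨0, rfl⟩⟩
    (by
      rintro a ⟨m, rfl⟩ b ⟨n, rfl⟩
      exact ⟨_, ⟨max m n, rfl⟩, hanti (le_max_left m n), hanti (le_max_right m n)⟩)
    (by
      rintro a ⟨m, rfl⟩
      exact ⟨_, ⟨m + 1, rfl⟩, hn2 m (s m)⟩)
  have hq : ∀ m, q ≤ (s m).1 := fun m => hq1 _ ⟨m, rfl⟩
  have hqlt : ∀ m, (s m).1.p.ht < q.p.ht := fun m => hq2 _ ⟨m, rfl⟩
  have hex : ∀ ξ, ξ < q.p.ht → ∃ m, ξ < (s m).1.p.ht := by
    intro ξ hξ
    obtain ⟨_, ⟨m, rfl⟩, hm⟩ := hq3 ξ hξ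
    exact ⟨m, hm⟩
  choose! ν hν using hex
  -- the names for arbitrary sequences
  let Y : (ℕ → M) → Nm (ℕ → Bool) L := fun F c ξ => (s (ν ξ)).1.y (trunc m0 F (ν ξ)) c ξ
  have hcomp : ∀ (F : ℕ → M) m m', m ≤ m' → ∀ c ξ, ξ < (s m).1.p.ht →
      (s m').1.y (trunc m0 F m') c ξ = (s m).1.y (trunc m0 F m) c ξ := by
    intro F m m' hmm c ξ hξ
    rw [(hanti hmm).2.1 _ c ξ hξ]
    exact (s m).2.agr _ _ (trunc_agr m0 F hmm le_rfl) c ξ hξ
  have hY : ∀ (F : ℕ → M) m c ξ, ξ < (s m).1.p.ht →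
      Y F c ξ = (s m).1.y (trunc m0 F m) c ξ := by
    intro F m c ξ hξ
    have hξν : ξ < (s (ν ξ)).1.p.ht := hν ξ (hξ.trans (hqlt m))
    rcases le_total m (ν ξ) with h | h
    · exact hcomp F m (ν ξ) h c ξ hξ
    · exact (hcomp F (ν ξ) m h c ξ hξν).symm
  have hoff : ∀ (F : ℕ → M) n c, c ∉ cyl x n → ∀ m, n ≤ m → ∀ ξ, ξ < (s m).1.p.ht →
      (s m).1.y (trunc m0 F m) c ξ = (s m).1.y (trunc m0 F n) c ξ := by
    intro F n c hc m hm
    induction m, hm using Nat.le_induction with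
    | base => intro ξ _; rfl
    | succ m hm ih =>
      refine hpat m _ _ c (Or.inr fun h => hc (cyl_anti x hm h)) fun ξ hξ => ?_
      rw [← ih ξ hξ]
      exact (s m).2.agr _ _ (trunc_agr m0 F (Nat.le_succ m) le_rfl) c ξ hξ
  have hYmem : ∀ F, LocIn AddOmega q.p.t q.p.ht (Y F) := by
    intro F
    refine LocIn.ofLocal fun f => ?_
    obtain ⟨g, hg, n, hn⟩ := add_off f x
    refine ⟨g, hg, q.y (trunc m0 F n), q.mem _, fun c hc ξ hξ => ?_⟩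
    obtain ⟨m, hm, hmn⟩ : ∃ m, ξ < (s m).1.p.ht ∧ n ≤ m :=
      ⟨max (ν ξ) n, lt_of_lt_of_le (hν ξ hξ) (hanti (le_max_left _ _)).1.1, le_max_right _ _⟩
    rw [hY F m c ξ hm, hoff F n c (hn c hc) m hmn ξ hm]
    exact ((hq m).2.1 _ c ξ hm).symm
  have hYle : ∀ F m, mkQ q.p (Y F) (hYmem F) ≤ (s m).1.at' (trunc m0 F m) :=
    fun F m => mkQ_le (hq m).1 fun c ξ hξ => hY F m c ξ hξ
  have hYrs : ∀ F, mkQ q.p (Y F) (hYmem F) ≤ rs := fun F => (hYle F 0).trans ((s 0).2.le _)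
  -- a level above all splittings
  have hα : ∃ α : ℕ × Seq0 M m0 × Seq0 M m0 → L, ∀ m f g, ¬ Agr m f g →
      ∃ i i', i ≠ i' ∧ B.B ((s m).1.at' f) (α (m, f, g)) i ∧
        B.B ((s m).1.at' g) (α (m, f, g)) i' := by
    have : ∀ t : ℕ × Seq0 M m0 × Seq0 M m0, ∃ α : L, ¬ Agr t.1 t.2.1 t.2.2 →
        ∃ i i', i ≠ i' ∧ B.B ((s t.1).1.at' t.2.1) α i ∧ B.B ((s t.1).1.at' t.2.2) α i' := by
      rintro ⟨m, f, g⟩
      by_cases h : Agr m f g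
      · exact ⟨q.p.ht, fun h' => absurd h h'⟩
      · obtain ⟨α, i, i', h1⟩ := (s m).2.dif f g h
        exact ⟨α, fun _ => ⟨i, i', h1⟩⟩
    choose α hα using this
    exact ⟨α, fun m f g h => hα (m, f, g) h⟩
  obtain ⟨α, hα⟩ := hα
  obtain ⟨αs, hαs⟩ := hA.bdd (ℕ × Seq0 M m0 × Seq0 M m0) α (by
    simp only [Cardinal.mk_prod, Cardinal.lift_id, Cardinal.mk_nat]
    refine (mul_le_mul' (hA.inf (L := L)) (mul_le_mul' hJ hJ)).trans ?_
    rw [Cardinal.mul_eq_self (hA.inf (L := L)), Cardinal.mul_eq_self (hA.inf (L := L))])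
  -- the long descending sequence
  obtain ⟨Φ⟩ := (Cardinal.le_def _ _).1 hLM
  obtain ⟨ξ0, -⟩ := hA.bdd Empty (fun e => e.elim) (by simp)
  have hΦrs : ∀ ξ, mkQ q.p (Y (Φ ξ)) (hYmem (Φ ξ)) ≤ r0 := fun ξ => (hYrs _).trans hrs
  obtain ⟨r, hr1, hr2, hr3⟩ := chain_meet hA.inf
    (qq_closed (G := AddOmega) (X := ℕ → Bool) (L := L) (M := M)) (K := L) hA.init
    (fun ξ => {u | ∃ (y : Nm (ℕ → Bool) L) (hy : LocIn AddOmega u.p.t u.p.ht y),
      mkQ u.p y hy ≤ mkQ q.p (Y (Φ ξ)) (hYmem (Φ ξ)) ∧ ∃ j, B.B (mkQ u.p y hy) αs j})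
    (mkQ q.p (Y (Φ ξ0)) (hYmem (Φ ξ0)))
    (by
      intro ξ u hu
      have hup : u.p ≤ q.p := hu.1
      have hm : LocIn AddOmega u.p.t u.p.ht (repl q.p.ht (Y (Φ ξ)) (u.y ())) :=
        u.p.sys.repl' hup.1 (Set.mem_Iic.2 le_rfl)
          (Cond.locin_mono hup le_rfl (hYmem (Φ ξ))) (u.mem ())
      have hl : mkQ u.p (repl q.p.ht (Y (Φ ξ)) (u.y ())) hm ≤
          mkQ q.p (Y (Φ ξ)) (hYmem (Φ ξ)) := mkQ_le hup fun c ξ hξ => repl_lt hξ
      obtain ⟨v, hv, j, hB⟩ := B.total _ (hl.trans (hΦrs ξ)) αs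
      have hvu : v.p ≤ u.p := hv.1
      refine ⟨u.ext v.p hvu (v.y ()) (v.mem ()), u.ext_le _ _ _ _, v.y (), v.mem (), ?_, j, ?_⟩
      · exact (mkQ_self_le v).trans (hv.trans hl)
      · exact B.mono _ _ _ _ (mkQ_self_le v) hB)
  choose y hym hyl j hyB using hr1
  obtain ⟨ξ, η, hlt, hj⟩ : ∃ ξ η, ξ < η ∧ j ξ = j η := by
    by_contra hcon
    push Not at hcon
    refine hML ⟨j, fun ξ η h => ?_⟩
    rcases lt_trichotomy ξ η with h' | h' | h'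
    · exact absurd h (hcon ξ η h')
    · exact h'
    · exact absurd h.symm (hcon η ξ h')
  have hle := hr3 ξ η hlt
  have hlep : (r η).p ≤ (r ξ).p := hle.1
  have hm : LocIn AddOmega (r η).p.t (r η).p.ht (repl (r ξ).p.ht (y ξ) ((r η).y ())) :=
    (r η).p.sys.repl' hlep.1 (Set.mem_Iic.2 le_rfl)
      (Cond.locin_mono hlep le_rfl (hym ξ)) ((r η).mem ())
  have hl : mkQ (r η).p (repl (r ξ).p.ht (y ξ) ((r η).y ())) hm ≤ mkQ (r ξ).p (y ξ) (hym ξ) :=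
    mkQ_le hlep fun c ξ hξ => repl_lt hξ
  have hΦne : Φ ξ ≠ Φ η := fun h => hlt.ne (Φ.injective h)
  obtain ⟨m, hmne⟩ := Function.ne_iff.1 hΦne
  have hnag := trunc_ne m0 hmne
  obtain ⟨i, i', hii, hBi, hBi'⟩ := hα (m + 1) _ _ hnag
  have hlt2 := hαs (m + 1, trunc m0 (Φ ξ) (m + 1), trunc m0 (Φ η) (m + 1))
  have c1 := B.chain _ _ _ _ _
    (B.mono _ _ _ _ ((hl.trans (hyl ξ)).trans (hYle (Φ ξ) (m + 1))) hBi)
    (B.mono _ _ _ _ hl (hyB ξ)) hlt2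
  have c2 := B.chain _ _ _ _ _
    (B.mono _ _ _ _ ((hyl η).trans (hYle (Φ η) (m + 1))) hBi') (hyB η) hlt2
  rw [hj] at c1
  exact hii (T.uniq _ _ _ _ _ c1 c2)

end

/-- The forcing notion preserves the tree property if the larger one forces it. -/
theorem forcesTP_cond {L M : Type} [LinearOrder L] [hA : Amb L M]
    (hML : ¬ ∃ f : L → M, Function.Injective f) (hLM : #L ≤ #(ℕ → M))
    (h : ForcesTP (QQ AddOmega L M (ℕ → Bool)) L M) :
    ForcesTP (Cond AddOmega L M (ℕ → Bool)) L M := by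
  intro T p
  obtain ⟨w, hw⟩ := exists_mem p
  obtain ⟨r0, hr0, ⟨B⟩⟩ := h T.lift (mkQ p w hw)
  have h1 := no_splitting B hML hLM
  push Not at h1
  obtain ⟨r, hr, hns⟩ := h1
  exact ⟨r.p, (hr.trans hr0).1, branch_of_not_split hr hns⟩

end CAT9
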