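import Pool.Agent.Lib.CAT9.Ultra

/-!
# The successor of a limit of large cardinals
-/

namespace CAT9

open Cardinal

theorem sup_lt_pow (κ : ℕ → Cardinal.{0}) (hκ : StrictMono κ) :
    (⨆ n, κ n) < (⨆ n, κ n) ^ ℵ₀ := by
  have hb : BddAbove (Set.range κ) := Cardinal.bddAbove_of_small
  have h1 := Cardinal.sum_lt_prod κ (fun n => κ (n + 1)) (fun n => hκ (Nat.lt_succ_self n))
  have h2 : (⨆ n, κ n) ≤ Cardinal.sum κ := ciSup_le fun n => Cardinal.le_sum κ n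
  have h3 : Cardinal.prod (fun n => κ (n + 1)) ≤ Cardinal.prod (fun _ : ℕ => ⨆ n, κ n) :=
    Cardinal.prod_le_prod _ _ fun n => le_ciSup hb (n + 1)
  rw [Cardinal.prod_const] at h3
  simpa using (h2.trans_lt h1).trans_le h3

theorem exists_pieces (κ : ℕ → Cardinal.{0}) (hκ : StrictMono κ) (h0 : ℵ₀ ≤ κ 0) (M : Type)
    (hM : #M = ⨆ n, κ n) : ∃ ν : M → ℕ, ∀ n, #{i // ν i ≤ n} < κ (n + 1) := by
  have hinf : ∀ n, ℵ₀ ≤ κ n := fun n => h0.trans (hκ.monotone (Nat.zero_le n))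
  have hb : BddAbove (Set.range κ) := Cardinal.bddAbove_of_small
  have h1 : #M ≤ #(Σ n, (κ n).out) := by
    rw [hM, Cardinal.mk_sigma]
    refine ciSup_le fun n => ?_
    refine le_trans ?_ (Cardinal.le_sum (fun n => #((κ n).out)) n)
    simp
  obtain ⟨f⟩ := (Cardinal.le_def _ _).1 h1
  refine ⟨fun i => (f i).1, fun n => (hκ (Nat.lt_succ_self n)).trans_le' ?_⟩
  let g : {i // (f i).1 ≤ n} → (Σ k : Fin (n + 1), (κ k).out) := fun i =>
    ⟨⟨(f i.1).1, Nat.lt_succ_of_le i.2⟩, (f i.1).2⟩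
  have hg : Function.Injective g := by
    rintro ⟨i, hi⟩ ⟨j, hj⟩ hij
    apply Subtype.ext
    apply f.injective
    simp only [g, Sigma.mk.injEq, Fin.mk.injEq] at hij
    exact Sigma.ext hij.1 hij.2
  refine (Cardinal.mk_le_of_injective hg).trans ?_
  rw [Cardinal.mk_sigma]
  refine (Cardinal.sum_le_sum _ (fun _ : Fin (n + 1) => κ n) fun k => ?_).trans ?_
  · simpa using hκ.monotone (Nat.lt_succ_iff.1 k.2)
  · simp only [Cardinal.sum_const, Cardinal.mk_fin, Cardinal.lift_id]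
    exact (Cardinal.mul_le_max _ _).trans
      (max_le (max_le ((Cardinal.nat_lt_aleph0 _).le.trans (hinf n)) le_rfl) (hinf n))

/-- If `μ` is the limit of the cardinals `κ n`, and every `μ⁺`-directed closed forcing notion forces
that `μ⁺` carries `κ n`-complete uniform ultrafilters, then some forcing notion forces the tree
property at `μ⁺` while its product with `Add(ω, 1)` forces that there is a `μ⁺`-Aronszajn tree. -/
theorem main_large (κ : ℕ → Cardinal.{0}) (hκ : StrictMono κ) (h0 : ℵ₀ < κ 0)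
    (H : ∀ (n : ℕ) (Q : Type) (_ : Preorder Q), DirectedClosed (⨆ n, κ n) Q →
      ∀ p : Q, ∃ q, q ≤ p ∧ Nonempty (UltraName (κ n) Q (Lev (⨆ n, κ n)) q)) :
    ∃ (P : Type) (_ : Preorder P), Nonempty P ∧ Distributive (⨆ n, κ n) P ∧
      ForcesTP P (Lev (⨆ n, κ n)) (Nod (⨆ n, κ n)) ∧
      ForcesAronszajn (P × AddOmega) (Lev (⨆ n, κ n)) (Nod (⨆ n, κ n)) := by
  have hb : BddAbove (Set.range κ) := Cardinal.bddAbove_of_small
  have hμ : ℵ₀ ≤ ⨆ n, κ n := h0.le.trans (le_ciSup hb 0)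
  obtain ⟨P, hP, Q, hQ, h1, h2, h3, h4, h5⟩ := main (⨆ n, κ n) hμ (sup_lt_pow κ hκ)
  refine ⟨P, hP, h1, h2, h5 ?_, h4⟩
  have hA := amb_lev hμ
  have hM : #(Nod (⨆ n, κ n)) = ⨆ n, κ n := mk_ord_toType _
  obtain ⟨ν, hν⟩ := exists_pieces κ hκ h0.le (Nod (⨆ n, κ n)) hM
  exact forcesTP_of_ultra (hM.symm ▸ h3) ν κ h0
    (fun n => h0.le.trans (hκ.monotone (Nat.zero_le n))) hν fun n p => H n Q hQ h3 p

end CAT9
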