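import Pool.Agent.Lib.CAT9.Final

/-!
# The main theorem
-/

namespace CAT9

open Cardinal

theorem amb_lev {μ : Cardinal.{0}} (hμ : ℵ₀ ≤ μ) : Amb (Lev μ) (Nod μ) := by
  have hreg := isRegular_succ hμ
  have hM : #(Nod μ) = μ := mk_ord_toType μ
  refine ⟨inferInstance, by rw [hM]; exact hμ, fun a => ?_, fun K f hK => ?_⟩
  · rw [hM]
    have h := mk_Iio_lt (α := Lev μ) a (by simp)
    rw [mk_ord_toType] at h
    exact Order.lt_succ_iff.1 h
  · rw [hM] at hK
    have hcof : Order.cof (Lev μ) = Order.succ μ := by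
      rw [Ordinal.cof_toType, hreg.cof_ord]
    by_contra hcon
    push Not at hcon
    have h1 : IsCofinal (Set.range f) := by
      intro a
      obtain ⟨k, hk⟩ := hcon a
      exact ⟨f k, ⟨k, rfl⟩, hk⟩
    have h2 := Order.cof_le h1
    rw [hcof] at h2
    exact absurd ((Order.lt_succ μ).trans_le (h2.trans (Cardinal.mk_range_le.trans hK)))
      (lt_irrefl _)

theorem mk_addOmega_le : #AddOmega ≤ ℵ₀ := by
  have h1 : #(List (Option Bool)) ≤ ℵ₀ :=
    (Cardinal.mk_list_le_max _).trans (max_le le_rfl (Cardinal.lt_aleph0_of_finite _).le)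
  refine le_trans ?_ h1
  refine Cardinal.mk_le_of_surjective (f := fun l : List (Option Bool) =>
    (⟨fun k => l.getD k none, (Set.finite_lt_nat l.length).subset fun k hk => by
      by_contra hcon
      exact hk (List.getD_eq_default _ _ (not_lt.1 hcon))⟩ : AddOmega)) ?_
  rintro ⟨f, hf⟩
  obtain ⟨n, hn⟩ := hf.bddAbove
  refine ⟨(List.range (n + 1)).map f, ?_⟩
  apply Subtype.ext
  funext k
  by_cases hk : k < n + 1
  · simp [hk]
  · have h2 : ((List.range (n + 1)).map f).length ≤ k := by simpa using not_lt.1 hk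
    change ((List.range (n + 1)).map f).getD k none = f k
    rw [List.getD_eq_default _ _ h2]
    by_contra hcon
    have : k ≤ n := hn (show k ∈ {n | f n ≠ none} from fun h => hcon h.symm)
    exact hk (Nat.lt_succ_of_le this)

theorem main (μ : Cardinal.{0}) (hμ : ℵ₀ ≤ μ) (hpow : μ < μ ^ ℵ₀) :
    ∃ (P : Type) (_ : Preorder P) (Q : Type) (_ : Preorder Q),
      Nonempty P ∧ Distributive μ P ∧ DirectedClosed μ Q ∧
      ForcesAronszajn (P × AddOmega) (Lev μ) (Nod μ) ∧
      (ForcesTP Q (Lev μ) (Nod μ) → ForcesTP P (Lev μ) (Nod μ)) := by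
  have hA := amb_lev hμ
  have hM : #(Nod μ) = μ := mk_ord_toType μ
  have hL : #(Lev μ) = Order.succ μ := mk_ord_toType _
  refine ⟨Cond AddOmega (Lev μ) (Nod μ) (ℕ → Bool), inferInstance,
    QQ AddOmega (Lev μ) (Nod μ) (ℕ → Bool), inferInstance, cond_nonempty, ?_, ?_, ?_, fun h => ?_⟩
  · have h := cond_distributive (G := AddOmega) (L := Lev μ) (M := Nod μ) (X := ℕ → Bool)
    rwa [hM] at h
  · have h := qq_closed (G := AddOmega) (L := Lev μ) (M := Nod μ) (X := ℕ → Bool)
    rwa [hM] at h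
  · refine forcesAronszajn ?_
    rw [hM]
    exact mk_addOmega_le.trans hμ
  · refine forcesTP_cond ?_ ?_ h
    · rintro ⟨f, hf⟩
      have := Cardinal.mk_le_of_injective hf
      rw [hL, hM] at this
      exact absurd this (not_le.2 (Order.lt_succ μ))
    · rw [hL, ← Cardinal.power_def, Cardinal.mk_nat, hM]
      exact Order.succ_le_of_lt hpow

theorem aleph_omega_lt : aleph.{0} Ordinal.omega0 < aleph.{0} Ordinal.omega0 ^ ℵ₀ := by
  have h := Cardinal.lt_power_cof_ord (c := aleph.{0} Ordinal.omega0) (aleph0_le_aleph _)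
  have h2 : (aleph.{0} Ordinal.omega0).ord.cof = ℵ₀ := by simp
  rwa [h2] at h

end CAT9
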