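import Pool.Agent.Lib.CAT9.Defs

/-!
# Meeting dense sets in directed closed forcing notions
-/

namespace CAT9

open Cardinal

theorem chain_meet {Q : Type} [Preorder Q] {μ : Cardinal.{0}} (hμ : ℵ₀ ≤ μ)
    (hQ : DirectedClosed μ Q) {K : Type} [LinearOrder K] [WellFoundedLT K]
    (hK : ∀ k : K, #{k' : K // k' < k} ≤ μ) (D : K → Set Q) (q0 : Q)
    (hD : ∀ k, ∀ q, q ≤ q0 → ∃ r, r ≤ q ∧ r ∈ D k) :
    ∃ r : K → Q, (∀ k, r k ∈ D k) ∧ (∀ k, r k ≤ q0) ∧ ∀ k k', k < k' → r k' ≤ r k := by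
  classical
  let step : ∀ k : K, (∀ k', k' < k → Q) → Q := fun k ih =>
    if h : ∃ q, q ∈ D k ∧ q ≤ q0 ∧ ∀ k' (h : k' < k), q ≤ ih k' h then h.choose else q0
  let r : K → Q := (wellFounded_lt (α := K)).fix step
  have hr : ∀ k, r k = step k (fun k' _ => r k') := fun k => WellFounded.fix_eq _ _ _
  have key : ∀ k, r k ∈ D k ∧ r k ≤ q0 ∧ ∀ k', k' < k → r k ≤ r k' := by
    intro k
    induction k using WellFoundedLT.induction with
    | ind k ih =>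
      have ex : ∃ q, q ∈ D k ∧ q ≤ q0 ∧ ∀ k' (_ : k' < k), q ≤ r k' := by
        let S : Set Q := insert q0 (Set.range (fun k' : {k' : K // k' < k} => r k'.1))
        have hS : #S ≤ μ := by
          refine (Cardinal.mk_insert_le).trans ?_
          refine (add_le_add (Cardinal.mk_range_le.trans (hK k)) le_rfl).trans ?_
          exact (Cardinal.add_one_eq hμ).le
        have hdir : DirectedOn (fun a b => b ≤ a) S := by
          rintro x (rfl | ⟨⟨a, ha⟩, rfl⟩) y (rfl | ⟨⟨b, hb⟩, rfl⟩)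
          · exact ⟨_, Or.inl rfl, le_rfl, le_rfl⟩
          · exact ⟨_, Or.inr ⟨⟨b, hb⟩, rfl⟩, (ih b hb).2.1, le_rfl⟩
          · exact ⟨_, Or.inr ⟨⟨a, ha⟩, rfl⟩, le_rfl, (ih a ha).2.1⟩
          · rcases lt_trichotomy a b with h | h | h
            · exact ⟨_, Or.inr ⟨⟨b, hb⟩, rfl⟩, (ih b hb).2.2 a h, le_rfl⟩
            · subst h
              exact ⟨_, Or.inr ⟨⟨a, ha⟩, rfl⟩, le_rfl, le_rfl⟩
            · exact ⟨_, Or.inr ⟨⟨a, ha⟩, rfl⟩, le_rfl, (ih a ha).2.2 b h⟩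
        obtain ⟨q, hq⟩ := hQ S hS hdir
        obtain ⟨q', hq', hqD⟩ := hD k q (hq q0 (Or.inl rfl))
        exact ⟨q', hqD, hq'.trans (hq q0 (Or.inl rfl)),
          fun k' hk' => hq'.trans (hq _ (Or.inr ⟨⟨k', hk'⟩, rfl⟩))⟩
      have h1 : r k = ex.choose := by
        rw [hr k]
        exact dif_pos ex
      rw [h1]
      exact ex.choose_spec
  exact ⟨r, fun k => (key k).1, fun k => (key k).2.1, fun k k' h => (key k').2.2 k h⟩

theorem meet {Q : Type} [Preorder Q] {μ : Cardinal.{0}} (hμ : ℵ₀ ≤ μ)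
    (hQ : DirectedClosed μ Q) {K : Type} (hK : #K ≤ μ) (D : K → Set Q) (q0 : Q)
    (ho : ∀ k, ∀ q r, r ≤ q → q ∈ D k → r ∈ D k)
    (hD : ∀ k, ∀ q, q ≤ q0 → ∃ r, r ≤ q ∧ r ∈ D k) :
    ∃ r, r ≤ q0 ∧ ∀ k, r ∈ D k := by
  obtain ⟨_, _⟩ := exists_wellFoundedLT (α := K)
  obtain ⟨r, h1, h2, h3⟩ := chain_meet hμ hQ (K := K)
    (fun k => (Cardinal.mk_subtype_le _).trans hK) D q0 hD
  let S : Set Q := insert q0 (Set.range r)
  have hS : #S ≤ μ := by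
    refine (Cardinal.mk_insert_le).trans ?_
    refine (add_le_add (Cardinal.mk_range_le.trans hK) le_rfl).trans ?_
    exact (Cardinal.add_one_eq hμ).le
  have hdir : DirectedOn (fun a b => b ≤ a) S := by
    rintro x (rfl | ⟨a, rfl⟩) y (rfl | ⟨b, rfl⟩)
    · exact ⟨_, Or.inl rfl, le_rfl, le_rfl⟩
    · exact ⟨_, Or.inr ⟨b, rfl⟩, h2 b, le_rfl⟩
    · exact ⟨_, Or.inr ⟨a, rfl⟩, le_rfl, h2 a⟩
    · rcases lt_trichotomy a b with h | h | h
      · exact ⟨_, Or.inr ⟨b, rfl⟩, h3 a b h, le_rfl⟩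
      · subst h
        exact ⟨_, Or.inr ⟨a, rfl⟩, le_rfl, le_rfl⟩
      · exact ⟨_, Or.inr ⟨a, rfl⟩, le_rfl, h3 b a h⟩
  obtain ⟨q, hq⟩ := hQ S hS hdir
  exact ⟨q, hq q0 (Or.inl rfl), fun k => ho k _ _ (hq _ (Or.inr ⟨k, rfl⟩)) (h1 k)⟩

end CAT9
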