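import Pool.Agent.Lib.CAT9.Core
import Pool.Agent.Lib.CAT9.Meet

/-!
# The forcing notions
-/

namespace CAT9

open Cardinal

/-- The assumptions on the ordered set of levels and the set of node numbers. -/
class Amb (L M : Type) [LinearOrder L] : Prop where
  wf : WellFoundedLT L
  inf : ℵ₀ ≤ #M
  init : ∀ a : L, #{b : L // b < a} ≤ #M
  bdd : ∀ (K : Type) (f : K → L), #K ≤ #M → ∃ a, ∀ k, f k < a

/-- Conditions: the levels up to a height. -/
structure Cond (G L M X : Type) [LinearOrder L] [Preorder G] [Pts G X] where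
  /-- the height -/
  ht : L
  /-- the names on each level -/
  t : L → M → Nm X L
  sys : Sys G t (Set.Iic ht)

section

variable {G L M X : Type} [LinearOrder L] [Preorder G] [Pts G X]

instance : Preorder (Cond G L M X) where
  le q p := p.ht ≤ q.ht ∧ ∀ a, a ≤ p.ht → q.t a = p.t a
  le_refl := fun _ => ⟨le_rfl, fun _ _ => rfl⟩
  le_trans := fun _ _ _ h1 h2 =>
    ⟨h2.1.trans h1.1, fun a ha => (h1.2 a (ha.trans h2.1)).trans (h2.2 a ha)⟩

variable (G L M X)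

/-- A condition together with a family of names of elements of its last level.  The names agree
at the points of `A j k` as long as they did before. -/
structure Fam (J : Type) (A : J → J → Set X) where
  /-- the condition -/
  p : Cond G L M X
  /-- the names -/
  y : J → Nm X L
  mem : ∀ j, LocIn G p.t p.ht (y j)

variable {G L M X}

instance {J : Type} {A : J → J → Set X} : Preorder (Fam G L M X J A) where
  le s' s := s'.p ≤ s.p ∧ (∀ j c ξ, ξ < s.p.ht → s'.y j c ξ = s.y j c ξ) ∧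
    ∀ j k, ∀ c ∈ A j k, (∀ ξ, ξ < s.p.ht → s.y j c ξ = s.y k c ξ) →
      ∀ ξ, ξ < s'.p.ht → s'.y j c ξ = s'.y k c ξ
  le_refl := fun _ => ⟨le_rfl, fun _ _ _ _ => rfl, fun _ _ _ _ h => h⟩
  le_trans := fun a b c h1 h2 =>
    ⟨h1.1.trans h2.1, fun j x ξ hξ => (h1.2.1 j x ξ (hξ.trans_le h2.1.1)).trans (h2.2.1 j x ξ hξ),
      fun j k x hx h => h1.2.2 j k x hx (h2.2.2 j k x hx h)⟩

theorem Cond.locin_mono {p q : Cond G L M X} (h : q ≤ p) {a : L} (ha : a ≤ p.ht) {y : Nm X L}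
    (hy : LocIn G p.t a y) : LocIn G q.t a y := LocIn.congrT (h.2 a ha).symm hy

theorem exists_min (L : Type) [LinearOrder L] [WellFoundedLT L] (S : Set L) (hS : S.Nonempty) :
    ∃ γ, γ ∈ S ∧ ∀ a, a ∈ S → γ ≤ a :=
  ⟨(wellFounded_lt (α := L)).min S hS, (wellFounded_lt (α := L)).min_mem S hS,
    fun a ha => not_lt.1 ((wellFounded_lt (α := L)).not_lt_min S ha)⟩

variable (M) in
theorem exists_bot [hA : Amb L M] : ∃ b : L, ∀ a, b ≤ a := by
  have := hA.wf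
  obtain ⟨a, -⟩ := hA.bdd Empty (fun e => e.elim) (by simp)
  obtain ⟨γ, -, h⟩ := exists_min L Set.univ ⟨a, trivial⟩
  exact ⟨γ, fun a => h a trivial⟩

theorem Amb.neM (L : Type) [LinearOrder L] (hA : Amb L M) : Nonempty M := by
  have h := hA.inf
  rw [← Cardinal.mk_ne_zero_iff]
  intro h0
  rw [h0] at h
  exact absurd h (not_le.2 Cardinal.aleph0_pos)

theorem cond_nonempty [hA : Amb L M] : Nonempty (Cond G L M X) := by
  obtain ⟨b, hb⟩ := exists_bot (L := L) M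
  refine ⟨⟨b, fun _ _ _ _ => false, ?_⟩⟩
  refine ⟨?_, ?_, ?_⟩ <;>
  · intro a c hac hc
    exact absurd (hac.trans_le hc) (not_lt.2 (hb a))

theorem fam_nonempty [hA : Amb L M] (J : Type) (A : J → J → Set X) :
    Nonempty (Fam G L M X J A) := by
  have := Amb.neM L hA
  obtain ⟨p⟩ := cond_nonempty (G := G) (L := L) (M := M) (X := X)
  exact ⟨⟨p, fun _ => p.t p.ht (Classical.arbitrary M), fun _ => LocIn.self G _ _ _⟩⟩

/-- The limit of a directed family of conditions without maximal height. -/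
theorem union_level [hA : Amb L M] {J : Type} [Nonempty J] (hJ : #J ≤ #M) {A : J → J → Set X}
    (S : Set (Fam G L M X J A)) (hS : #S ≤ #M) (hne : S.Nonempty)
    (hdir : DirectedOn (fun a b => b ≤ a) S)
    (hmax : ∀ s ∈ S, ∃ s' ∈ S, s.p.ht < s'.p.ht) :
    ∃ q : Fam G L M X J A, (∀ s ∈ S, q ≤ s) ∧ (∀ s ∈ S, s.p.ht < q.p.ht) ∧
      (∀ ξ, ξ < q.p.ht → ∃ s ∈ S, ξ < s.p.ht) ∧
      ∀ k, ∃ j, ∃ l : List {a : L // a < q.p.ht}, ∀ c ξ, (∀ d ∈ l, d.1 < ξ) →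
        q.p.t q.p.ht k c ξ = q.y j c ξ := by
  classical
  have := hA.wf
  have := Amb.neM L hA
  obtain ⟨s0, hs0⟩ := hne
  obtain ⟨γ, hγ1, hγ2⟩ := exists_min L {a | ∀ s ∈ S, s.p.ht < a} (by
    obtain ⟨a, ha⟩ := hA.bdd S (fun s => s.1.p.ht) hS
    exact ⟨a, fun s hs => ha ⟨s, hs⟩⟩)
  have hγ3 : ∀ ξ, ξ < γ → ∃ s ∈ S, ξ < s.p.ht := by
    intro ξ hξ
    by_contra hcon
    push Not at hcon
    refine absurd hξ (not_lt.2 (hγ2 ξ fun s hs => ?_))
    obtain ⟨s', hs', hlt⟩ := hmax s hs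
    exact hlt.trans_le (hcon s' hs')
  have : Nonempty (Fam G L M X J A) := ⟨s0⟩
  choose! σ hσ1 hσ2 using hγ3
  let t : L → M → Nm X L := fun ξ => (σ ξ).p.t ξ
  let Y : J → Nm X L := fun j c ξ => (σ ξ).y j c ξ
  have key1 : ∀ s ∈ S, ∀ ξ, ξ < γ → ξ ≤ s.p.ht → t ξ = s.p.t ξ := by
    intro s hs ξ hξ hle
    obtain ⟨s'', -, h1, h2⟩ := hdir s hs (σ ξ) (hσ1 ξ hξ)
    exact (h2.1.2 ξ (hσ2 ξ hξ).le).symm.trans (h1.1.2 ξ hle)
  have key2 : ∀ s ∈ S, ∀ j c ξ, ξ < s.p.ht → Y j c ξ = s.y j c ξ := by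
    intro s hs j c ξ hlt
    have hξ : ξ < γ := hlt.trans (hγ1 s hs)
    obtain ⟨s'', -, h1, h2⟩ := hdir s hs (σ ξ) (hσ1 ξ hξ)
    exact (h2.2.1 j c ξ (hσ2 ξ hξ)).symm.trans (h1.2.1 j c ξ hlt)
  have hsys : Sys G t (Set.Iio γ) := by
    refine ⟨fun a b hab hb j => ?_, fun a b hab hb i j => ?_, fun a b hab hb j => ?_⟩ <;>
    · have hb' : b < γ := hb
      have hs := hσ1 b hb'
      have hlt := hσ2 b hb'
      have e1 := key1 _ hs b hb' hlt.le
      have e2 := key1 _ hs a (hab.trans hb') (hab.le.trans hlt.le)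
      first
      | (rw [e1]; exact LocIn.congrT e2.symm ((σ b).p.sys.coh a b hab hlt.le j))
      | (rw [e1, e2]; exact LocIn.congrT e1.symm ((σ b).p.sys.rep a b hab hlt.le i j))
      | (rw [e1]; exact LocIn.congrT e1.symm ((σ b).p.sys.flip a b hab hlt.le j))
  have hstar : ∀ j, Star G t γ (Y j) := by
    intro j a ha
    have hs := hσ1 a ha
    have hlt := hσ2 a ha
    have h1 : LocIn G (σ a).p.t a ((σ a).y j) :=
      (σ a).p.sys.down hlt.le (Set.mem_Iic.2 le_rfl) ((σ a).mem j)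
    refine LocIn.congrT (key1 _ hs a ha hlt.le).symm ?_
    exact LocIn.congr (fun c ξ hξ => key2 _ hs j c ξ (hξ.trans hlt)) h1
  obtain ⟨φ, hφ⟩ : ∃ φ : M → J, Function.Surjective φ := by
    obtain ⟨ψ⟩ := (Cardinal.le_def _ _).1 hJ
    exact ⟨Function.invFun ψ, Function.invFun_surjective ψ.injective⟩
  obtain ⟨t', h1, h2, h3, h4⟩ := exists_level hA.inf (hA.init γ) hsys (fun i => Y (φ i))
    (fun i => hstar (φ i))
  refine ⟨⟨⟨γ, t', h2⟩, Y, fun j => ?_⟩, ?_, hγ1, ?_, ?_⟩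
  · obtain ⟨i, hi⟩ := hφ j
    obtain ⟨i', hi'⟩ := h3 i
    have : t' γ i' = Y j := by rw [hi', hi]
    change LocIn G t' γ (Y j)
    rw [← this]
    exact LocIn.self G t' γ i'
  · intro s hs
    refine ⟨⟨(hγ1 s hs).le, fun a ha => ?_⟩, fun j c ξ hξ => key2 s hs j c ξ hξ, ?_⟩
    · have ha' : a < γ := ha.trans_lt (hγ1 s hs)
      exact (h1 a ha').trans (key1 s hs a ha' ha)
    · intro j k c hc heq ξ hξ
      have hs' := hσ1 ξ hξ
      have hlt := hσ2 ξ hξ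
      obtain ⟨s'', hs'', h5, h6⟩ := hdir s hs (σ ξ) hs'
      have hlt'' : ξ < s''.p.ht := hlt.trans_le h6.1.1
      exact (key2 s'' hs'' j c ξ hlt'').trans
        ((h5.2.2 j k c hc heq ξ hlt'').trans (key2 s'' hs'' k c ξ hlt'').symm)
  · intro ξ hξ
    exact ⟨σ ξ, hσ1 ξ hξ, hσ2 ξ hξ⟩
  · intro k
    obtain ⟨i, l, hl⟩ := h4 k
    exact ⟨φ i, l, hl⟩

theorem fam_closed [hA : Amb L M] {J : Type} [Nonempty J] (hJ : #J ≤ #M)
    (A : J → J → Set X) : DirectedClosed #M (Fam G L M X J A) := by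
  intro S hS hdir
  rcases S.eq_empty_or_nonempty with rfl | hne
  · obtain ⟨q⟩ := fam_nonempty (G := G) (L := L) (M := M) J A
    exact ⟨q, fun s hs => absurd hs (Set.notMem_empty s)⟩
  by_cases hmax : ∃ s ∈ S, ∀ s' ∈ S, s'.p.ht ≤ s.p.ht
  · obtain ⟨s, hs, hmax⟩ := hmax
    refine ⟨s, fun s' hs' => ?_⟩
    obtain ⟨s'', hs'', h1, h2⟩ := hdir s hs s' hs'
    have hle := hmax s' hs'
    refine ⟨⟨hle, fun a ha => ?_⟩, fun j c ξ hξ => ?_, fun j k c hc heq ξ hξ => ?_⟩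
    · exact (h1.1.2 a (ha.trans hle)).symm.trans (h2.1.2 a ha)
    · exact (h1.2.1 j c ξ (hξ.trans_le hle)).symm.trans (h2.2.1 j c ξ hξ)
    · rw [← h1.2.1 j c ξ hξ, ← h1.2.1 k c ξ hξ]
      exact h2.2.2 j k c hc heq ξ (hξ.trans_le h1.1.1)
  · push Not at hmax
    obtain ⟨q, hq, -⟩ := union_level hJ S hS hne hdir hmax
    exact ⟨q, hq⟩

/-! ### Extending conditions -/

/-- Extend all names of a family in the same way. -/
def Fam.ext {J : Type} {A : J → J → Set X} (s : Fam G L M X J A) (p' : Cond G L M X)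
    (h : p' ≤ s.p) (w : Nm X L) (hw : LocIn G p'.t p'.ht w) : Fam G L M X J A where
  p := p'
  y := fun j => repl s.p.ht (s.y j) w
  mem := fun j => p'.sys.repl' h.1 (Set.mem_Iic.2 le_rfl)
    (Cond.locin_mono h le_rfl (s.mem j)) hw

theorem Fam.ext_le {J : Type} {A : J → J → Set X} (s : Fam G L M X J A) (p' : Cond G L M X)
    (h : p' ≤ s.p) (w : Nm X L) (hw : LocIn G p'.t p'.ht w) : s.ext p' h w hw ≤ s := by
  refine ⟨h, fun j c ξ hξ => repl_lt hξ, fun j k c _ heq ξ _ => ?_⟩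
  change repl s.p.ht (s.y j) w c ξ = repl s.p.ht (s.y k) w c ξ
  rcases lt_or_ge ξ s.p.ht with h' | h'
  · rw [repl_lt h', repl_lt h', heq ξ h']
  · rw [repl_ge h', repl_ge h']

theorem succ_ext [hA : Amb L M] (p : Cond G L M X) : ∃ p' : Cond G L M X, p' ≤ p ∧ p.ht < p'.ht := by
  classical
  have := hA.wf
  have := Amb.neM L hA
  obtain ⟨γ, hγ1, hγ2⟩ := exists_min L {a | p.ht < a} (by
    obtain ⟨a, ha⟩ := hA.bdd Unit (fun _ => p.ht) (by
      rw [Cardinal.mk_unit]; exact Cardinal.one_le_aleph0.trans hA.inf)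
    exact ⟨a, ha ()⟩)
  have hle : ∀ a, a < γ → a ≤ p.ht := fun a ha => by
    by_contra hcon
    exact absurd ha (not_lt.2 (hγ2 a (not_le.1 hcon)))
  have hsys : Sys G p.t (Set.Iio γ) := p.sys.mono fun a ha => hle a ha
  obtain ⟨t', h1, h2, -, -⟩ := exists_level hA.inf (hA.init γ) hsys
    (fun _ => p.t p.ht (Classical.arbitrary M))
    (fun _ a ha => p.sys.down (hle a ha) (Set.mem_Iic.2 le_rfl) (LocIn.self G _ _ _))
  exact ⟨⟨γ, t', h2⟩, ⟨le_of_lt hγ1, fun a ha => h1 a (ha.trans_lt hγ1)⟩, hγ1⟩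

/-- Conditions with one name. -/
abbrev QQ (G L M X : Type) [LinearOrder L] [Preorder G] [Pts G X] : Type :=
  Fam G L M X Unit (fun _ _ => ∅)

/-- The condition given by `p` and the name `y`. -/
def mkQ (p : Cond G L M X) (y : Nm X L) (h : LocIn G p.t p.ht y) : QQ G L M X :=
  ⟨p, fun _ => y, fun _ => h⟩

theorem mkQ_le {p p' : Cond G L M X} {y y' : Nm X L} {h : LocIn G p.t p.ht y}
    {h' : LocIn G p'.t p'.ht y'} (hp : p' ≤ p) (hy : ∀ c ξ, ξ < p.ht → y' c ξ = y c ξ) :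
    mkQ p' y' h' ≤ mkQ p y h :=
  ⟨hp, fun _ c ξ hξ => hy c ξ hξ, fun _ _ _ hc => absurd hc (Set.notMem_empty _)⟩

theorem QQ.le_iff {r s : QQ G L M X} :
    r ≤ s ↔ r.p ≤ s.p ∧ ∀ c ξ, ξ < s.p.ht → r.y () c ξ = s.y () c ξ :=
  ⟨fun h => ⟨h.1, fun c ξ hξ => h.2.1 () c ξ hξ⟩,
    fun h => ⟨h.1, fun _ c ξ hξ => h.2 c ξ hξ, fun _ _ _ hc => absurd hc (Set.notMem_empty _)⟩⟩

theorem mk_unit_le [hA : Amb L M] : #Unit ≤ #M := by
  rw [Cardinal.mk_unit]; exact Cardinal.one_le_aleph0.trans (hA.inf (L := L))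

theorem qq_closed [hA : Amb L M] : DirectedClosed #M (QQ G L M X) :=
  fam_closed (mk_unit_le (L := L)) _

theorem ht_dense [hA : Amb L M] (β : L) : ∀ q : QQ G L M X, ∃ q', q' ≤ q ∧ β ≤ q'.p.ht := by
  classical
  have := hA.wf
  have := Amb.neM L hA
  induction β using WellFoundedLT.induction with
  | ind β ih =>
    intro q
    obtain ⟨r, hr, hrD⟩ := meet hA.inf (qq_closed (G := G) (X := X) (L := L) (M := M))
      (K := {b : L // b < β}) (hA.init β) (fun b => {s | b.1 ≤ s.p.ht}) q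
      (fun b s s' hle hs => le_trans hs hle.1.1)
      (fun b s _ => ih b.1 b.2 s)
    obtain ⟨p', hp', hlt⟩ := succ_ext r.p
    refine ⟨r.ext p' hp' (p'.t p'.ht (Classical.arbitrary M)) (LocIn.self G _ _ _),
      (r.ext_le _ _ _ _).trans hr, ?_⟩
    change β ≤ p'.ht
    by_contra hcon
    exact absurd hlt (not_lt.2 (hrD ⟨p'.ht, not_le.1 hcon⟩))

theorem cond_ht_dense [hA : Amb L M] (β : L) (p : Cond G L M X) :
    ∃ p' : Cond G L M X, p' ≤ p ∧ β ≤ p'.ht := by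
  have := Amb.neM L hA
  obtain ⟨q', hq', h⟩ := ht_dense β
    (mkQ p (p.t p.ht (Classical.arbitrary M)) (LocIn.self G _ _ _))
  exact ⟨q'.p, hq'.1, h⟩

theorem exists_mem [hA : Amb L M] (p : Cond G L M X) : ∃ w, LocIn G p.t p.ht w := by
  have := Amb.neM L hA
  exact ⟨_, LocIn.self G p.t p.ht (Classical.arbitrary M)⟩

/-- The forcing notion of conditions is distributive. -/
theorem cond_distributive [hA : Amb L M] : Distributive #M (Cond G L M X) := by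
  intro K D hK hD p
  have := Amb.neM L hA
  obtain ⟨w, hw⟩ := exists_mem p
  obtain ⟨r, hr, h⟩ := meet hA.inf (qq_closed (G := G) (X := X) (L := L) (M := M))
    (K := K) hK (fun k => {s | s.p ∈ D k}) (mkQ p w hw)
    (fun k s s' hle hs => (hD k).1 _ _ hle.1 hs)
    (fun k s _ => by
      obtain ⟨p', hp', hp'D⟩ := (hD k).2 s.p
      obtain ⟨w', hw'⟩ := exists_mem p'
      exact ⟨s.ext p' hp' w' hw', s.ext_le _ _ _ _, hp'D⟩)
  exact ⟨r.p, hr.1, h⟩

end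

end CAT9
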