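import Pool.Agent.Lib.CAT9.Poset

/-!
# Splitting a branch
-/

namespace CAT9

open Cardinal

section

variable {G L M X : Type} [LinearOrder L] [Preorder G] [Pts G X]

/-- Sets which are decided densely often. -/
def Clop (G : Type) [Preorder G] [Pts G X] (C : Set X) : Prop :=
  ∀ f : G, ∃ g, g ≤ f ∧ (Pts.cy (X := X) g ⊆ C ∨ ∀ c ∈ Pts.cy (X := X) g, c ∉ C)

open Classical in
/-- Equal to `z` on `C` and to `y` elsewhere. -/
noncomputable def mix (C : Set X) (y z : Nm X L) : Nm X L := fun c ξ =>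
  if c ∈ C then z c ξ else y c ξ

theorem mix_pos {C : Set X} {y z : Nm X L} {c : X} (h : c ∈ C) (ξ : L) :
    mix C y z c ξ = z c ξ := by simp [mix, h]

theorem mix_neg {C : Set X} {y z : Nm X L} {c : X} (h : c ∉ C) (ξ : L) :
    mix C y z c ξ = y c ξ := by simp [mix, h]

theorem LocIn.mix {C : Set X} (hC : Clop G C) {t : L → M → Nm X L} {a : L} {y z : Nm X L}
    (hy : LocIn G t a y) (hz : LocIn G t a z) : LocIn G t a (mix C y z) := by
  refine LocIn.ofLocal fun f => ?_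
  obtain ⟨g, hg, h | h⟩ := hC f
  · exact ⟨g, hg, z, hz, fun c hc ξ _ => mix_pos (h hc) ξ⟩
  · exact ⟨g, hg, y, hy, fun c hc ξ _ => mix_neg (h c hc) ξ⟩

theorem mkQ_self_le (q : QQ G L M X) : mkQ q.p (q.y ()) (q.mem ()) ≤ q :=
  QQ.le_iff.2 ⟨le_rfl, fun _ _ _ => rfl⟩

/-- A name for a tree, seen as a name for the larger forcing notion. -/
def TreeName.lift [hA : Amb L M] (T : TreeName (Cond G L M X) L M) :
    TreeName (QQ G L M X) L M where
  R s x y := T.R s.p x y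
  mono p q x y h h' := T.mono _ _ _ _ h.1 h'
  dense s x y h := by
    refine T.dense _ _ _ fun q hq => ?_
    obtain ⟨w, hw⟩ := exists_mem q
    obtain ⟨r, hr, hR⟩ := h (s.ext q hq w hw) (s.ext_le _ _ _ _)
    exact ⟨r.p, hr.1, hR⟩
  lt p x y h := T.lt _ _ _ h
  trans p x y z h h' := T.trans _ _ _ _ h h'
  tree p x y z h h' := T.tree _ _ _ _ h h'
  uniq p a i j z h h' := T.uniq _ _ _ _ _ h h'
  pred s y a h := by
    obtain ⟨q, hq, i, hi⟩ := T.pred s.p y a h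
    obtain ⟨w, hw⟩ := exists_mem q
    exact ⟨s.ext q hq w hw, s.ext_le _ _ _ _, i, hi⟩

variable [hA : Amb L M] {T : TreeName (Cond G L M X) L M} {r0 : QQ G L M X}

/-- Two extensions of `r` which agree outside of `C` decide the branch differently. -/
def Split (B : BranchName T.lift r0) (r : QQ G L M X) (C : Set X) : Prop :=
  ∃ (p' : Cond G L M X) (y0 y1 : Nm X L) (h0 : LocIn G p'.t p'.ht y0)
    (h1 : LocIn G p'.t p'.ht y1), mkQ p' y0 h0 ≤ r ∧ mkQ p' y1 h1 ≤ r ∧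
    (∀ c, c ∉ C → ∀ ξ, ξ < p'.ht → y0 c ξ = y1 c ξ) ∧
    ∃ α i0 i1, i0 ≠ i1 ∧ B.B (mkQ p' y0 h0) α i0 ∧ B.B (mkQ p' y1 h1) α i1

theorem Split.mono {B : BranchName T.lift r0} {r r' : QQ G L M X} {C : Set X} (h : r' ≤ r)
    (hs : Split B r' C) : Split B r C := by
  obtain ⟨p', y0, y1, h0, h1, l0, l1, hh⟩ := hs
  exact ⟨p', y0, y1, h0, h1, l0.trans h, l1.trans h, hh⟩

theorem split_union {B : BranchName T.lift r0} {r : QQ G L M X} (hr : r ≤ r0)
    {C0 C1 : Set X} (hC0 : Clop G C0) (h0 : ¬ Split B r C0) (h1 : ¬ Split B r C1) :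
    ¬ Split B r (C0 ∪ C1) := by
  rintro ⟨p', y0, y1, m0, m1, l0, l1, heq, α, i0, i1, hne, b0, b1⟩
  have l0' := QQ.le_iff.1 l0
  have l1' := QQ.le_iff.1 l1
  have m2 : LocIn G p'.t p'.ht (mix C0 y0 y1) := LocIn.mix hC0 m0 m1
  have l2 : mkQ p' (mix C0 y0 y1) m2 ≤ r := by
    refine QQ.le_iff.2 ⟨l0.1, fun c ξ hξ => ?_⟩
    change mix C0 y0 y1 c ξ = r.y () c ξ
    by_cases hc : c ∈ C0
    · rw [mix_pos hc]; exact l1'.2 c ξ hξ
    · rw [mix_neg hc]; exact l0'.2 c ξ hξ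
  obtain ⟨q, hq, i2, b2⟩ := B.total _ (l2.trans hr) α
  have hq' := QQ.le_iff.1 hq
  have hqp : q.p ≤ p' := hq.1
  set z := q.y () with hz
  have hzy : ∀ c ξ, ξ < p'.ht → z c ξ = mix C0 y0 y1 c ξ := fun c ξ hξ => hq'.2 c ξ hξ
  have n0 : LocIn G q.p.t q.p.ht (repl p'.ht y0 z) :=
    q.p.sys.repl' hqp.1 (Set.mem_Iic.2 le_rfl) (Cond.locin_mono hqp le_rfl m0) (q.mem ())
  have n1 : LocIn G q.p.t q.p.ht (repl p'.ht y1 z) :=
    q.p.sys.repl' hqp.1 (Set.mem_Iic.2 le_rfl) (Cond.locin_mono hqp le_rfl m1) (q.mem ())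
  have k0 : mkQ q.p (repl p'.ht y0 z) n0 ≤ mkQ p' y0 m0 := mkQ_le hqp fun c ξ hξ => repl_lt hξ
  have k1 : mkQ q.p (repl p'.ht y1 z) n1 ≤ mkQ p' y1 m1 := mkQ_le hqp fun c ξ hξ => repl_lt hξ
  have k2 : mkQ q.p z (q.mem ()) ≤ q := mkQ_self_le q
  have b2' : B.B (mkQ q.p z (q.mem ())) α i2 := B.mono _ _ _ _ k2 b2
  have e02 : i0 = i2 := by
    by_contra hcon
    refine h0 ⟨q.p, _, _, n0, q.mem (), k0.trans l0, k2.trans (hq.trans l2), ?_, α, i0, i2, hcon,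
      B.mono _ _ _ _ k0 b0, b2'⟩
    intro c hc ξ hξ
    rcases lt_or_ge ξ p'.ht with h | h
    · rw [repl_lt h]
      change _ = z c ξ
      rw [hzy c ξ h, mix_neg hc]
    · rw [repl_ge h]
  have e21 : i2 = i1 := by
    by_contra hcon
    refine h1 ⟨q.p, _, _, q.mem (), n1, k2.trans (hq.trans l2), k1.trans l1, ?_, α, i2, i1, hcon,
      b2', B.mono _ _ _ _ k1 b1⟩
    intro c hc ξ hξ
    rcases lt_or_ge ξ p'.ht with h | h
    · rw [repl_lt h]
      change z c ξ = _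
      rw [hzy c ξ h]
      by_cases hc0 : c ∈ C0
      · rw [mix_pos hc0]
      · rw [mix_neg hc0]
        exact heq c (fun h => h.elim hc0 hc) ξ h
    · rw [repl_ge h]
  exact hne (e02.trans e21)

theorem branch_of_not_split {B : BranchName T.lift r0} {r : QQ G L M X} (hr : r ≤ r0)
    (h : ¬ Split B r Set.univ) : Nonempty (BranchName T r.p) := by
  refine ⟨⟨fun p α i => ∃ (z : Nm X L) (hz : LocIn G p.t p.ht z),
    mkQ p z hz ≤ r ∧ B.B (mkQ p z hz) α i, ?_, ?_, ?_, ?_⟩⟩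
  · rintro p p' α i hle ⟨z, hz, hzr, hB⟩
    obtain ⟨w, hw⟩ := exists_mem p'
    have hm : LocIn G p'.t p'.ht (repl p.ht z w) :=
      p'.sys.repl' hle.1 (Set.mem_Iic.2 le_rfl) (Cond.locin_mono hle le_rfl hz) hw
    have hl : mkQ p' (repl p.ht z w) hm ≤ mkQ p z hz := mkQ_le hle fun c ξ hξ => repl_lt hξ
    exact ⟨_, hm, hl.trans hzr, B.mono _ _ _ _ hl hB⟩
  · rintro p α i j ⟨z, hz, hzr, hB⟩ ⟨z', hz', hzr', hB'⟩
    by_contra hcon
    exact h ⟨p, z, z', hz, hz', hzr, hzr', fun c hc => absurd (Set.mem_univ c) hc, α, i, j, hcon,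
      hB, hB'⟩
  · intro q hq α
    obtain ⟨w, hw⟩ := exists_mem q
    have hs := r.ext_le q hq w hw
    obtain ⟨r', hr', i, hB⟩ := B.total _ (hs.trans hr) α
    exact ⟨r'.p, hr'.1, i, r'.y (), r'.mem (), (mkQ_self_le r').trans (hr'.trans hs),
      B.mono _ _ _ _ (mkQ_self_le r') hB⟩
  · rintro q a b i j ⟨z1, m1, l1, B1⟩ ⟨z2, m2, l2, B2⟩ hab
    refine T.dense _ _ _ fun q' hq' => ?_
    obtain ⟨w, hw⟩ := exists_mem q'
    have hm : LocIn G q'.t q'.ht (repl q.ht z1 w) :=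
      q'.sys.repl' hq'.1 (Set.mem_Iic.2 le_rfl) (Cond.locin_mono hq' le_rfl m1) hw
    have hl : mkQ q' (repl q.ht z1 w) hm ≤ mkQ q z1 m1 := mkQ_le hq' fun c ξ hξ => repl_lt hξ
    obtain ⟨s, hs, j', hB⟩ := B.total _ (hl.trans (l1.trans hr)) b
    have hsq : s.p ≤ q := LE.le.trans hs.1 hq'
    have hm2 : LocIn G s.p.t s.p.ht (repl q.ht z2 (s.y ())) :=
      s.p.sys.repl' hsq.1 (Set.mem_Iic.2 le_rfl) (Cond.locin_mono hsq le_rfl m2) (s.mem ())
    have hl2 : mkQ s.p (repl q.ht z2 (s.y ())) hm2 ≤ mkQ q z2 m2 :=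
      mkQ_le hsq fun c ξ hξ => repl_lt hξ
    have hself := mkQ_self_le s
    have ejj : j = j' := by
      by_contra hcon
      exact h ⟨s.p, _, _, hm2, s.mem (), hl2.trans l2, hself.trans (hs.trans (hl.trans l1)),
        fun c hc => absurd (Set.mem_univ c) hc, b, j, j', hcon, B.mono _ _ _ _ hl2 B2,
        B.mono _ _ _ _ hself hB⟩
    subst ejj
    exact ⟨s.p, hs.1, B.chain s a b i j (B.mono _ _ _ _ (hs.trans hl) B1) hB hab⟩

end

end CAT9
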