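import Pool.Agent.Lib.CAT9.Cantor

/-!
# One stage of the splitting construction
-/

namespace CAT9

open Cardinal

/-- Sequences which are eventually equal to `m0`. -/
abbrev Seq0 (M : Type) (m0 : M) : Type := {f : ℕ → M // ∃ n, ∀ k, n ≤ k → f k = m0}

theorem mk_seq0_le {M : Type} (m0 : M) (hM : ℵ₀ ≤ #M) : #(Seq0 M m0) ≤ #M := by
  have h1 : #(List M) ≤ #M := (Cardinal.mk_list_le_max _).trans (max_le hM le_rfl)
  refine le_trans ?_ h1
  refine Cardinal.mk_le_of_surjective (f := fun l : List M =>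
    (⟨fun k => l.getD k m0, l.length, fun k hk => List.getD_eq_default _ _ hk⟩ : Seq0 M m0)) ?_
  rintro ⟨f, n, hn⟩
  refine ⟨(List.range n).map f, ?_⟩
  apply Subtype.ext
  funext k
  by_cases hk : k < n
  · simp [hk]
  · have h2 : ((List.range n).map f).length ≤ k := by simpa using not_lt.1 hk
    change ((List.range n).map f).getD k m0 = f k
    rw [List.getD_eq_default _ _ h2, hn k (not_lt.1 hk)]

section

variable {L M : Type} [LinearOrder L] [hA : Amb L M]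
  {T : TreeName (Cond AddOmega L M (ℕ → Bool)) L M}
  {r0 : QQ AddOmega L M (ℕ → Bool)}

/-- Families indexed by eventually constant sequences. -/
abbrev FF (L M : Type) [LinearOrder L] (m0 : M) (A : Seq0 M m0 → Seq0 M m0 → Set (ℕ → Bool)) :
    Type := Fam AddOmega L M (ℕ → Bool) (Seq0 M m0) A

/-- A member of a family as a condition. -/
def Fam.at' {m0 : M} {A : Seq0 M m0 → Seq0 M m0 → Set (ℕ → Bool)} (s : FF L M m0 A)
    (j : Seq0 M m0) : QQ AddOmega L M (ℕ → Bool) := mkQ s.p (s.y j) (s.mem j)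

theorem Fam.at'_mono {m0 : M} {A : Seq0 M m0 → Seq0 M m0 → Set (ℕ → Bool)} {s s' : FF L M m0 A}
    (h : s' ≤ s) (j : Seq0 M m0) : s'.at' j ≤ s.at' j :=
  mkQ_le h.1 fun c ξ hξ => h.2.1 j c ξ hξ

/-- Agreement below `m`. -/
def Agr {m0 : M} (m : ℕ) (f g : Seq0 M m0) : Prop := ∀ k, k < m → f.1 k = g.1 k

/-- The points at which agreement is kept in stage `m`. -/
def AA (x : ℕ → Bool) {m0 : M} (m : ℕ) (f g : Seq0 M m0) : Set (ℕ → Bool) :=
  {c | Agr (m + 1) f g ∨ c ∉ cyl x m}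

/-- The invariants at the start of stage `m`. -/
structure Inv (B : BranchName T.lift r0) (rs : QQ AddOmega L M (ℕ → Bool)) {m0 : M} (m : ℕ)
    (s : FF L M m0 (fun _ _ => ∅)) : Prop where
  le : ∀ j, s.at' j ≤ rs
  agr : ∀ f g, Agr m f g → ∀ c ξ, ξ < s.p.ht → s.y f c ξ = s.y g c ξ
  dif : ∀ f g, ¬ Agr m f g → ∃ α i i', i ≠ i' ∧ B.B (s.at' f) α i ∧ B.B (s.at' g) α i'

/-- Change the type of a family. -/
def Fam.cast' {m0 : M} {A : Seq0 M m0 → Seq0 M m0 → Set (ℕ → Bool)} (s : FF L M m0 A)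
    (A' : Seq0 M m0 → Seq0 M m0 → Set (ℕ → Bool)) : FF L M m0 A' := ⟨s.p, s.y, s.mem⟩

theorem dense_task (B : BranchName T.lift r0) (x : ℕ → Bool) {rs : QQ AddOmega L M (ℕ → Bool)}
    (hrs : rs ≤ r0) (hx : ∀ m r, r ≤ rs → Split B r (cyl x m)) {m0 : M} (m : ℕ)
    (f g : Seq0 M m0) (hfg : ¬ Agr (m + 1) f g) (u : FF L M m0 (AA x m)) (hu : u.at' f ≤ rs)
    (hu' : u.at' g ≤ rs) :
    ∃ u' : FF L M m0 (AA x m), u' ≤ u ∧
      ∃ α i i', i ≠ i' ∧ B.B (u'.at' f) α i ∧ B.B (u'.at' g) α i' := by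
  classical
  obtain ⟨p', y0, y1, m0', m1', l0, l1, heq, α, i0, i1, hne, b0, b1⟩ := hx m _ hu
  have hpu : p' ≤ u.p := l0.1
  have l0' := QQ.le_iff.1 l0
  have l1' := QQ.le_iff.1 l1
  -- extend the name for `g`
  have mz : LocIn AddOmega p'.t p'.ht (repl u.p.ht (u.y g) y0) :=
    p'.sys.repl' hpu.1 (Set.mem_Iic.2 le_rfl) (Cond.locin_mono hpu le_rfl (u.mem g)) m0'
  have lz : mkQ p' (repl u.p.ht (u.y g) y0) mz ≤ u.at' g :=
    mkQ_le hpu fun c ξ hξ => repl_lt hξ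
  obtain ⟨q, hq, i', b'⟩ := B.total _ (lz.trans (hu'.trans hrs)) α
  have hq' := QQ.le_iff.1 hq
  have hqp : q.p ≤ p' := hq.1
  have hqu : q.p ≤ u.p := LE.le.trans hqp hpu
  obtain ⟨yb, ib, mb, hib, lb, bb, hbeq⟩ : ∃ (yb : Nm (ℕ → Bool) L) (ib : M)
      (mb : LocIn AddOmega p'.t p'.ht yb), ib ≠ i' ∧ mkQ p' yb mb ≤ u.at' f ∧
      B.B (mkQ p' yb mb) α ib ∧ ∀ c, c ∉ cyl x m → ∀ ξ, ξ < p'.ht → yb c ξ = y0 c ξ := by
    by_cases h : i0 = i'
    · exact ⟨y1, i1, m1', fun h1 => hne (h.trans h1.symm), l1, b1,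
        fun c hc ξ hξ => (heq c hc ξ hξ).symm⟩
    · exact ⟨y0, i0, m0', h, l0, b0, fun c hc ξ hξ => rfl⟩
  have lb' := QQ.le_iff.1 lb
  set z := q.y () with hz
  let wb : Nm (ℕ → Bool) L := repl p'.ht yb z
  let w : Nm (ℕ → Bool) L := repl p'.ht y0 z
  have mwb : LocIn AddOmega q.p.t q.p.ht wb :=
    q.p.sys.repl' hqp.1 (Set.mem_Iic.2 le_rfl) (Cond.locin_mono hqp le_rfl mb) (q.mem ())
  have mw : LocIn AddOmega q.p.t q.p.ht w :=
    q.p.sys.repl' hqp.1 (Set.mem_Iic.2 le_rfl) (Cond.locin_mono hqp le_rfl m0') (q.mem ())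
  let W : Seq0 M m0 → Nm (ℕ → Bool) L := fun h => if Agr (m + 1) h f then wb else w
  have mW : ∀ h, LocIn AddOmega q.p.t q.p.ht (W h) := by
    intro h
    by_cases hh : Agr (m + 1) h f
    · simp only [W, hh, if_true]; exact mwb
    · simp only [W, hh, if_false]; exact mw
  let u' : FF L M m0 (AA x m) := ⟨q.p, fun h => repl u.p.ht (u.y h) (W h), fun h =>
    q.p.sys.repl' hqu.1 (Set.mem_Iic.2 le_rfl) (Cond.locin_mono hqu le_rfl (u.mem h)) (mW h)⟩
  have hWf : W f = wb := by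
    have : Agr (m + 1) f f := fun k _ => rfl
    simp only [W, this, if_true]
  have hWg : W g = w := by
    have : ¬ Agr (m + 1) g f := fun h => hfg fun k hk => (h k hk).symm
    simp only [W, this, if_false]
  refine ⟨u', ⟨hqu, fun j c ξ hξ => repl_lt hξ, ?_⟩, α, ib, i', hib, ?_, ?_⟩
  · intro j k c hc hjk ξ hξ
    change repl u.p.ht (u.y j) (W j) c ξ = repl u.p.ht (u.y k) (W k) c ξ
    rcases lt_or_ge ξ u.p.ht with h | h
    · rw [repl_lt h, repl_lt h, hjk ξ h]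
    · rw [repl_ge h, repl_ge h]
      rcases hc with hc | hc
      · have : Agr (m + 1) j f ↔ Agr (m + 1) k f :=
          ⟨fun h' l hl => (hc l hl).symm.trans (h' l hl), fun h' l hl => (hc l hl).trans (h' l hl)⟩
        simp only [W, this]
      · have hww : wb c ξ = w c ξ := by
          change repl p'.ht yb z c ξ = repl p'.ht y0 z c ξ
          rcases lt_or_ge ξ p'.ht with h' | h'
          · rw [repl_lt h', repl_lt h', hbeq c hc ξ h']
          · rw [repl_ge h', repl_ge h']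
        have hWW : ∀ l, W l c ξ = w c ξ := by
          intro l
          by_cases hl : Agr (m + 1) l f
          · simp only [W, hl, if_true]; exact hww
          · simp only [W, hl, if_false]
        rw [hWW, hWW]
  · refine B.mono (mkQ p' yb mb) _ _ _ ?_ bb
    refine mkQ_le hqp fun c ξ hξ => ?_
    change repl u.p.ht (u.y f) (W f) c ξ = yb c ξ
    rw [hWf]
    rcases lt_or_ge ξ u.p.ht with h | h
    · rw [repl_lt h]
      exact (lb'.2 c ξ h).symm
    · rw [repl_ge h]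
      exact repl_lt hξ
  · refine B.mono q _ _ _ ?_ b'
    refine QQ.le_iff.2 ⟨le_rfl, fun c ξ hξ => ?_⟩
    change repl u.p.ht (u.y g) (W g) c ξ = z c ξ
    have hzz : ∀ ξ, ξ < p'.ht → z c ξ = repl u.p.ht (u.y g) y0 c ξ :=
      fun ξ hξ => hq'.2 c ξ hξ
    rw [hWg]
    rcases lt_or_ge ξ p'.ht with h' | h'
    · rw [hzz ξ h']
      rcases lt_or_ge ξ u.p.ht with h | h
      · rw [repl_lt h, repl_lt h]
      · rw [repl_ge h, repl_ge h]
        exact repl_lt h'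
    · rw [repl_ge (hpu.1.trans h')]
      exact repl_ge h'

theorem stage (B : BranchName T.lift r0) (x : ℕ → Bool) {rs : QQ AddOmega L M (ℕ → Bool)}
    (hrs : rs ≤ r0) (hx : ∀ m r, r ≤ rs → Split B r (cyl x m)) {m0 : M} (m : ℕ)
    (s : FF L M m0 (fun _ _ => ∅)) (hs : Inv B rs m s) :
    ∃ s' : FF L M m0 (fun _ _ => ∅), Inv B rs (m + 1) s' ∧ s' ≤ s ∧ s.p.ht < s'.p.ht ∧
      ∀ f g, ∀ c ∈ AA x m f g, (∀ ξ, ξ < s.p.ht → s.y f c ξ = s.y g c ξ) →
        ∀ ξ, ξ < s'.p.ht → s'.y f c ξ = s'.y g c ξ := by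
  classical
  have hJ : #(Seq0 M m0) ≤ #M := mk_seq0_le m0 (hA.inf (L := L))
  have : Nonempty (Seq0 M m0) := ⟨⟨fun _ => m0, 0, fun _ _ => rfl⟩⟩
  let K : Type := {fg : Seq0 M m0 × Seq0 M m0 // Agr m fg.1 fg.2 ∧ ¬ Agr (m + 1) fg.1 fg.2}
  have hK : #K ≤ #M := by
    refine (Cardinal.mk_subtype_le _).trans ?_
    simp only [Cardinal.mk_prod, Cardinal.lift_id]
    exact (mul_le_mul' hJ hJ).trans (Cardinal.mul_eq_self (hA.inf (L := L))).le
  obtain ⟨u, hu, hD⟩ := meet hA.inf (fam_closed (G := AddOmega) (X := ℕ → Bool) (L := L)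
    (M := M) hJ (AA x m)) hK
    (fun fg => {v : FF L M m0 (AA x m) | ∃ α i i', i ≠ i' ∧ B.B (v.at' fg.1.1) α i ∧
      B.B (v.at' fg.1.2) α i'}) (s.cast' (AA x m))
    (by
      rintro fg v v' hle ⟨α, i, i', hne, h1, h2⟩
      exact ⟨α, i, i', hne, B.mono _ _ _ _ (Fam.at'_mono hle _) h1,
        B.mono _ _ _ _ (Fam.at'_mono hle _) h2⟩)
    (by
      intro fg v hv
      exact dense_task B x hrs hx m fg.1.1 fg.1.2 fg.2.2 v
        ((Fam.at'_mono hv _).trans (hs.le _)) ((Fam.at'_mono hv _).trans (hs.le _)))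
  obtain ⟨p', hp', hlt⟩ := succ_ext u.p
  obtain ⟨w, hw⟩ := exists_mem p'
  have hext := u.ext_le p' hp' w hw
  have hv := hext.trans hu
  set v : FF L M m0 (AA x m) := u.ext p' hp' w hw with hvdef
  have hvs : ∀ j, v.at' j ≤ s.at' j := fun j => Fam.at'_mono hv j
  refine ⟨v.cast' _, ⟨fun j => (hvs j).trans (hs.le j), ?_, ?_⟩, ⟨hv.1, hv.2.1, ?_⟩, ?_, ?_⟩
  · intro f g hfg c ξ hξ
    exact hv.2.2 f g c (Or.inl hfg) (fun ξ hξ => hs.agr f g
      (fun k hk => hfg k (hk.trans (Nat.lt_succ_self m))) c ξ hξ) ξ hξ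
  · intro f g hfg
    by_cases h : Agr m f g
    · obtain ⟨α, i, i', hne, h1, h2⟩ := hD ⟨(f, g), h, hfg⟩
      exact ⟨α, i, i', hne, B.mono _ _ _ _ (Fam.at'_mono hext f) h1,
        B.mono _ _ _ _ (Fam.at'_mono hext g) h2⟩
    · obtain ⟨α, i, i', hne, h1, h2⟩ := hs.dif f g h
      exact ⟨α, i, i', hne, B.mono _ _ _ _ (hvs f) h1, B.mono _ _ _ _ (hvs g) h2⟩
  · intro j k c hc
    exact absurd hc (Set.notMem_empty c)
  · exact hu.1.1.trans_lt hlt
  · intro f g c hc h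
    exact hv.2.2 f g c hc h

end

end CAT9
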