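import Pool.Agent.Lib.CAT9.Main

/-!
# The tree property from complete ultrafilters in the extension

The argument of Magidor and Shelah, written with names.
-/

namespace CAT9

open Cardinal

/-- A name, below the condition `p`, for a `κ`-complete uniform ultrafilter on the set of levels
`L`.  A name for a subset of `L` is a relation `A`, where `A r x` says that `r` forces `x` to be a
member, and `U q A` says that `q` forces the set named by `A` to be in the ultrafilter. -/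
structure UltraName (κ : Cardinal.{0}) (Q : Type) [Preorder Q] (L : Type) [LinearOrder L]
    (p : Q) where
  /-- `q` forces that the set named by `A` is in the ultrafilter. -/
  U : Q → (Q → L → Prop) → Prop
  mono : ∀ q r A, r ≤ q → U q A → U r A
  up : ∀ q A B, U q A → (∀ r, r ≤ q → ∀ x, A r x → B r x) → U q B
  inter : ∀ q (K : Type) (A : K → Q → L → Prop), #K < κ → (∀ k, U q (A k)) →
    U q (fun r x => ∀ k, A k r x)
  decide : ∀ q, q ≤ p → ∀ A : Q → L → Prop, (∀ r s x, s ≤ r → A r x → A s x) →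
    ∃ r, r ≤ q ∧ (U r A ∨ U r (fun s x => ∀ t, t ≤ s → ¬ A t x))
  unbounded : ∀ q, q ≤ p → ∀ A, U q A → ∀ a, ∃ r, r ≤ q ∧ ∃ x, a < x ∧ A r x

section

variable {L M : Type} [LinearOrder L] {Q : Type} [Preorder Q]

/-- A name for an unbounded set of levels such that any two of its members are connected by a pair
of nodes with small numbers. -/
structure Narrow (T : TreeName Q L M) (ν : M → ℕ) (n : ℕ) (p : Q) where
  /-- `q` forces that the level `a` is in the set -/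
  D : Q → L → Prop
  mono : ∀ q r a, r ≤ q → D q a → D r a
  unbounded : ∀ q, q ≤ p → ∀ a, ∃ r, r ≤ q ∧ ∃ b, a < b ∧ D r b
  pair : ∀ q, q ≤ p → ∀ a b, a < b → D q a → D q b →
    ∃ r, r ≤ q ∧ ∃ i j, ν i ≤ n ∧ ν j ≤ n ∧ T.R r (a, i) (b, j)

theorem exists_narrow [hA : Amb L M] (hQ : DirectedClosed #M Q) (ν : M → ℕ)
    (T : TreeName Q L M) {κ : Cardinal.{0}} (hκ : ℵ₀ < κ) {p : Q} (W : UltraName κ Q L p) :
    ∃ q, q ≤ p ∧ ∃ n, Nonempty (Narrow T ν n q) := by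
  have hinf := hA.inf
  obtain ⟨i0⟩ := Amb.neM L hA
  let A : ℕ → L → Q → L → Prop := fun n a r b => a < b ∧ ∃ i, ν i ≤ n ∧ T.R r (a, i) (b, i0)
  have hAm : ∀ n a, ∀ r s x, s ≤ r → A n a r x → A n a s x := by
    rintro n a r s x hs ⟨h1, i, h2, h3⟩
    exact ⟨h1, i, h2, T.mono _ _ _ _ hs h3⟩
  have h1a : ∀ q, q ≤ p → ∀ a, ∃ r, r ≤ q ∧ ∃ n, W.U r (A n a) := by
    intro q hq a
    by_contra hcon
    push Not at hcon
    obtain ⟨r, hr, hrD⟩ := meet hinf hQ (K := ℕ) (by simpa using hinf)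
      (fun n => {r | W.U r (fun s x => ∀ t, t ≤ s → ¬ A n a t x)}) q
      (fun n q' r' h h' => W.mono _ _ _ h h') (fun n q' hq' => by
        obtain ⟨r, hr, h | h⟩ := W.decide q' (hq'.trans hq) (A n a) (hAm n a)
        · exact absurd h (hcon r (hr.trans hq') n)
        · exact ⟨r, hr, h⟩)
    have h2 := W.inter r ℕ (fun n s x => ∀ t, t ≤ s → ¬ A n a t x) (by simpa using hκ) hrD
    obtain ⟨r', hr', x, hx, h3⟩ := W.unbounded r (hr.trans hq) _ h2 a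
    obtain ⟨t, ht, i, hi⟩ := T.pred r' (x, i0) a hx
    exact h3 (ν i) t ht ⟨hx, i, le_rfl, hi⟩
  have h1b : ∃ n, ∃ q, q ≤ p ∧ ∀ q', q' ≤ q → ∀ a, ∃ r, r ≤ q' ∧ ∃ b, a < b ∧ W.U r (A n b) := by
    by_contra hcon
    push Not at hcon
    obtain ⟨r, hr, hrD⟩ := meet hinf hQ (K := ℕ) (by simpa using hinf)
      (fun n => {q | ∃ a, ∀ r, r ≤ q → ∀ b, a < b → ¬ W.U r (A n b)}) p
      (fun n q' r' h ⟨a, ha⟩ => ⟨a, fun s hs => ha s (hs.trans h)⟩)
      (fun n q' hq' => by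
        obtain ⟨q2, hq2, a, ha⟩ := hcon n q' hq'
        exact ⟨q2, hq2, a, ha⟩)
    choose a ha using hrD
    obtain ⟨a', ha'⟩ := hA.bdd ℕ a (by simpa using hinf)
    obtain ⟨r', hr', n, hn⟩ := h1a r hr a'
    exact ha n r' hr' a' (ha' n) hn
  obtain ⟨n, q, hq, h⟩ := h1b
  refine ⟨q, hq, n, ⟨⟨fun r a => W.U r (A n a), fun r s a hs h => W.mono _ _ _ hs h, h, ?_⟩⟩⟩
  intro r hr a b hab hDa hDb
  have h2 := W.inter r Bool (fun k => bif k then A n a else A n b)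
    ((Cardinal.lt_aleph0_of_finite Bool).trans hκ) (by
      rintro (_ | _)
      · exact hDb
      · exact hDa)
  obtain ⟨s, hs, x, hx, h3⟩ := W.unbounded r (hr.trans hq) _ h2 b
  obtain ⟨-, i, hi, hi'⟩ := h3 true
  obtain ⟨-, j, hj, hj'⟩ := h3 false
  exact ⟨s, hs, i, j, hi, hj, T.tree s _ _ _ hi' hj' hab⟩

theorem exists_branch [hA : Amb L M] (hQ : DirectedClosed #M Q) (ν : M → ℕ)
    (T : TreeName Q L M) {n : ℕ} {κ : Cardinal.{0}} (hκ : ℵ₀ ≤ κ) (hn : #{i // ν i ≤ n} < κ)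
    {p : Q} (N : Narrow T ν n p) (V : UltraName κ Q L p) :
    ∃ q, q ≤ p ∧ Nonempty (BranchName T q) := by
  have hinf := hA.inf
  have hwf := hA.wf
  let K := {i // ν i ≤ n}
  have hKM : #K ≤ #M := Cardinal.mk_subtype_le _
  have hKK : #(K × K) < κ := by
    rw [← Cardinal.mul_def]
    exact Cardinal.mul_lt_of_lt hκ hn hn
  have hKKM : #(K × K) ≤ #M := by
    rw [← Cardinal.mul_def]
    exact (mul_le_mul' hKM hKM).trans (Cardinal.mul_eq_self hinf).le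
  let B : L → K → K → Q → L → Prop := fun a i j r b => a < b ∧ ∃ c, b < c ∧ N.D r c ∧
    (∀ d, b < d → d < c → ∀ t, t ≤ r → ¬ N.D t d) ∧ T.R r (a, i.1) (c, j.1)
  have hBm : ∀ a i j, ∀ r s x, s ≤ r → B a i j r x → B a i j s x := by
    rintro a i j r s x hs ⟨h1, c, h2, h3, h4, h5⟩
    exact ⟨h1, c, h2, N.mono _ _ _ hs h3, fun d hd hd' t ht => h4 d hd hd' t (ht.trans hs),
      T.mono _ _ _ _ hs h5⟩
  have h2a : ∀ q, q ≤ p → ∀ a, N.D q a → ∃ r, r ≤ q ∧ ∃ i j, V.U r (B a i j) := by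
    intro q hq a hDa
    by_contra hcon
    push Not at hcon
    obtain ⟨r, hr, hrD⟩ := meet hinf hQ (K := K × K) hKKM
      (fun k => {r | V.U r (fun s x => ∀ t, t ≤ s → ¬ B a k.1 k.2 t x)}) q
      (fun k q' r' h h' => V.mono _ _ _ h h') (fun k q' hq' => by
        obtain ⟨r, hr, h | h⟩ := V.decide q' (hq'.trans hq) (B a k.1 k.2) (hBm a k.1 k.2)
        · exact absurd h (hcon r (hr.trans hq') k.1 k.2)
        · exact ⟨r, hr, h⟩)
    have h2 := V.inter r (K × K) (fun k s x => ∀ t, t ≤ s → ¬ B a k.1 k.2 t x) hKK hrD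
    obtain ⟨r', hr', b, hb, h3⟩ := V.unbounded r (hr.trans hq) _ h2 a
    have hr'p : r' ≤ p := (hr'.trans hr).trans hq
    obtain ⟨r2, hr2, c0, hc0, hDc0⟩ := N.unbounded r' hr'p b
    obtain ⟨c, ⟨hbc, t, ht, hDc⟩, hmin⟩ := exists_min L {c | b < c ∧ ∃ t, t ≤ r2 ∧ N.D t c}
      ⟨c0, hc0, r2, le_rfl, hDc0⟩
    have htq : t ≤ q := ht.trans (hr2.trans (hr'.trans hr))
    obtain ⟨t', ht', i, j, hi, hj, hij⟩ := N.pair t (htq.trans hq) a c (hb.trans hbc)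
      (N.mono _ _ _ htq hDa) hDc
    refine h3 (⟨i, hi⟩, ⟨j, hj⟩) t' (ht'.trans (ht.trans hr2))
      ⟨hb, c, hbc, N.mono _ _ _ ht' hDc, fun d hd hd' s hs hDs => ?_, hij⟩
    exact absurd (hmin d ⟨hd, s, hs.trans (ht'.trans ht), hDs⟩) (not_le.2 hd')
  have h2b : ∃ j, ∃ q, q ≤ p ∧ ∀ q', q' ≤ q → ∀ a, ∃ r, r ≤ q' ∧ ∃ b, a < b ∧
      ∃ i, V.U r (B b i j) := by
    by_contra hcon
    push Not at hcon
    obtain ⟨r, hr, hrD⟩ := meet hinf hQ (K := K) hKM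
      (fun j => {q | ∃ a, ∀ r, r ≤ q → ∀ b, a < b → ∀ i, ¬ V.U r (B b i j)}) p
      (fun n q' r' h ⟨a, ha⟩ => ⟨a, fun s hs => ha s (hs.trans h)⟩)
      (fun j q' hq' => by
        obtain ⟨q2, hq2, a, ha⟩ := hcon j q' hq'
        exact ⟨q2, hq2, a, ha⟩)
    choose a ha using hrD
    obtain ⟨a', ha'⟩ := hA.bdd K a hKM
    obtain ⟨r1, hr1, b, hb, hDb⟩ := N.unbounded r hr a'
    obtain ⟨r2, hr2, i, j, hij⟩ := h2a r1 (hr1.trans hr) b hDb
    exact ha j r2 (hr2.trans hr1) b ((ha' j).trans hb) i hij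
  obtain ⟨j, q, hq, h⟩ := h2b
  have key : ∀ r, r ≤ p → ∀ a b i i', V.U r (B a i j) → V.U r (B b i' j) →
      ∃ s, s ≤ r ∧ ∃ c, T.R s (a, i.1) (c, j.1) ∧ T.R s (b, i'.1) (c, j.1) := by
    intro r hr a b i i' h1 h2
    have h3 := V.inter r Bool (fun k => bif k then B a i j else B b i' j)
      ((Cardinal.lt_aleph0_of_finite Bool).trans_le hκ) (by
        rintro (_ | _)
        · exact h2
        · exact h1)
    obtain ⟨s, hs, x, hx, h4⟩ := V.unbounded r hr _ h3 a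
    obtain ⟨-, c, hc1, hc2, hc3, hc4⟩ := h4 true
    obtain ⟨-, d, hd1, hd2, hd3, hd4⟩ := h4 false
    have hcd : c = d := by
      rcases lt_trichotomy c d with h | h | h
      · exact absurd hc2 (hd3 c hc1 h s le_rfl)
      · exact h
      · exact absurd hd2 (hc3 d hd1 h s le_rfl)
    subst hcd
    exact ⟨s, hs, c, hc4, hd4⟩
  have key1 : ∀ r, r ≤ p → ∀ a b i i', a < b → V.U r (B a i j) → V.U r (B b i' j) →
      T.R r (a, i.1) (b, i'.1) := by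
    intro r hr a b i i' hab h1 h2
    refine T.dense _ _ _ fun s hs => ?_
    obtain ⟨t, ht, c, h3, h4⟩ := key s (hs.trans hr) a b i i' (V.mono _ _ _ hs h1)
      (V.mono _ _ _ hs h2)
    exact ⟨t, ht, T.tree _ _ _ _ h3 h4 hab⟩
  have key2 : ∀ r, r ≤ p → ∀ a i i', V.U r (B a i j) → V.U r (B a i' j) → i.1 = i'.1 := by
    intro r hr a i i' h1 h2
    obtain ⟨t, ht, c, h3, h4⟩ := key r hr a a i i' h1 h2
    exact T.uniq _ _ _ _ _ h3 h4
  have top : ∀ r, r ≤ p → ∀ a b i i', V.U r (B a i j) → V.U r (B b i' j) →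
      ∃ z, (∀ x, T.R r x (a, i.1) → T.R r x z) ∧ (∀ x, T.R r x (b, i'.1) → T.R r x z) := by
    intro r hr a b i i' h1 h2
    rcases lt_trichotomy a b with h | h | h
    · exact ⟨(b, i'.1), fun x hx => T.trans _ _ _ _ hx (key1 r hr a b i i' h h1 h2), fun x hx => hx⟩
    · subst h
      refine ⟨(a, i.1), fun x hx => hx, fun x hx => ?_⟩
      rwa [key2 r hr a i i' h1 h2]
    · exact ⟨(a, i.1), fun x hx => hx, fun x hx => T.trans _ _ _ _ hx (key1 r hr b a i' i h h2 h1)⟩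
  refine ⟨q, hq, ⟨⟨fun r a k => r ≤ q ∧ ∃ b i, V.U r (B b i j) ∧ T.R r (a, k) (b, i.1),
    ?_, ?_, ?_, ?_⟩⟩⟩
  · rintro r s a k hs ⟨h1, b, i, h2, h3⟩
    exact ⟨hs.trans h1, b, i, V.mono _ _ _ hs h2, T.mono _ _ _ _ hs h3⟩
  · rintro r a k k' ⟨h1, b, i, h2, h3⟩ ⟨-, b', i', h2', h3'⟩
    obtain ⟨z, hz, hz'⟩ := top r (h1.trans hq) b b' i i' h2 h2'
    exact T.uniq _ _ _ _ _ (hz _ h3) (hz' _ h3')
  · intro r hr a
    obtain ⟨s, hs, b, hab, i, hi⟩ := h r hr a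
    obtain ⟨t, ht, k, hk⟩ := T.pred s (b, i.1) a hab
    exact ⟨t, ht.trans hs, k, ht.trans (hs.trans hr), b, i, V.mono _ _ _ ht hi, hk⟩
  · rintro r a a' k k' ⟨h1, b, i, h2, h3⟩ ⟨-, b', i', h2', h3'⟩ haa'
    obtain ⟨z, hz, hz'⟩ := top r (h1.trans hq) b b' i i' h2 h2'
    exact T.tree _ _ _ _ (hz _ h3) (hz' _ h3') haa'

theorem forcesTP_of_ultra [hA : Amb L M] (hQ : DirectedClosed #M Q) (ν : M → ℕ)
    (κ : ℕ → Cardinal.{0}) (hκ : ℵ₀ < κ 0) (hκ' : ∀ n, ℵ₀ ≤ κ n)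
    (hn : ∀ n, #{i // ν i ≤ n} < κ (n + 1))
    (hU : ∀ n (p : Q), ∃ q, q ≤ p ∧ Nonempty (UltraName (κ n) Q L q)) : ForcesTP Q L M := by
  intro T p
  obtain ⟨q0, hq0, ⟨W⟩⟩ := hU 0 p
  obtain ⟨q1, hq1, n, ⟨N⟩⟩ := exists_narrow hQ ν T hκ W
  obtain ⟨q2, hq2, ⟨V⟩⟩ := hU (n + 1) q1
  obtain ⟨q3, hq3, hB⟩ := exists_branch hQ ν T (hκ' (n + 1)) (hn n)
    (⟨N.D, N.mono, fun q hq => N.unbounded q (hq.trans hq2),
      fun q hq => N.pair q (hq.trans hq2)⟩ : Narrow T ν n q2) V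
  exact ⟨q3, hq3.trans (hq2.trans (hq1.trans hq0)), hB⟩

end

end CAT9
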